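import Pool.Agent.H521R3.SardLoops

/-!
The basic loops, and: every vector of the plane is the holonomy of a loop.
-/

namespace Pool.Agent.H521R3.Sard

open Set MeasureTheory Filter Topology
open scoped ContDiff
open Pool.Agent.Results.MP_77ffad_gt.NoRegularValue (T T_smooth T_zero T_one hasDerivAt_T
  continuous_deriv_T deriv_T_of_nonpos deriv_T_of_one_le)

noncomputable section

/-- the signed flat function -/
def be (e : ℕ → ℝ) (s : ℝ) : ℝ := BB e s / s

lemma hasDerivAt_be {e : ℕ → ℝ} (he : ∀ n, |e n| ≤ 1) (s : ℝ) :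
    HasDerivAt (be e) (deriv (be e) s) s :=
  ((quot_smooth he).differentiable (by simp) s).hasDerivAt

lemma continuous_deriv_be {e : ℕ → ℝ} (he : ∀ n, |e n| ≤ 1) : Continuous (deriv (be e)) :=
  (quot_smooth he).continuous_deriv (by simp)

lemma continuous_be {e : ℕ → ℝ} (he : ∀ n, |e n| ≤ 1) : Continuous (be e) :=
  (quot_smooth he).continuous

lemma be_zero (e : ℕ → ℝ) : be e 0 = 0 := by
  unfold be
  rw [BB_eq_zero (Or.inl (by norm_num))]
  simp

lemma be_three (e : ℕ → ℝ) : be e 3 = 0 := by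
  unfold be
  rw [BB_eq_zero (Or.inr (by norm_num))]
  simp

lemma deriv_be_three (e : ℕ → ℝ) : deriv (be e) 3 = 0 := by
  have h : be e =ᶠ[𝓝 3] fun _ => (0:ℝ) := by
    filter_upwards [lt_mem_nhds (show (5/2:ℝ) < 3 by norm_num)] with s hs
    unfold be
    rw [BB_eq_zero (Or.inr hs.le), zero_div]
  rw [h.deriv_eq]
  simp

/-- the integrand of the holonomy along the graph of `be e` -/
lemma A0_graph {e : ℕ → ℝ} (he : ∀ n, |e n| ≤ 1) (he2 : ∀ n, e n ^ 2 = 1) (s : ℝ) :
    A 0 ![s, be e s] = ![2 / 3 * BB e s ^ 3, s ^ 2 * G s ^ 2 / 4] := by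
  have hb : be e s ≤ 1 := by
    have := (abs_le.1 (abs_quot_le he s)).2
    unfold be
    linarith
  have h2 : be e s ^ 2 = G s := quot_sq he2 s
  have h3 : s ^ 3 * be e s ^ 3 = BB e s ^ 3 := by
    unfold be
    by_cases hs : s = 0
    · subst hs
      rw [BB_eq_zero (Or.inl (by norm_num))]
      simp
    · field_simp
  rw [A0]
  simp only [Matrix.cons_val_zero, Matrix.cons_val_one]
  ext l
  fin_cases l
  · simp only [Xi1, Fin.zero_eta, Matrix.cons_val_zero]
    rw [prim_zero 2 hb, prim_zero 0 hb, ← h2, ← h3]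
    ring
  · simp only [Xi2, Fin.mk_one, Matrix.cons_val_one]
    rw [prim_zero 3 hb, prim_zero 1 hb, ← h2]
    simp only [Matrix.cons_val_fin_one]
    ring

lemma hh_graph {e : ℕ → ℝ} (he2 : ∀ n, e n ^ 2 = 1) (s : ℝ) :
    hh ![s, be e s] = 0 := by
  have h2 : be e s ^ 2 = G s := quot_sq he2 s
  ext l
  fin_cases l
  · simp only [hh, Hh, Matrix.cons_val_zero, Matrix.cons_val_one, Fin.zero_eta]
    rw [h2]
    simp
  · simp only [hh, Hh, Matrix.cons_val_zero, Matrix.cons_val_one, Fin.mk_one]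
    rw [h2]
    simp

lemma T2_deriv (t : ℝ) : HasDerivAt (fun t => T (2 * t)) (deriv T (2 * t) * 2) t := by
  have h1 : HasDerivAt (fun t : ℝ => 2 * t) 2 t := by
    simpa using (hasDerivAt_id t).const_mul (2:ℝ)
  exact (hasDerivAt_T (2 * t)).comp t h1

lemma T21_deriv (t : ℝ) : HasDerivAt (fun t => T (2 * t - 1)) (deriv T (2 * t - 1) * 2) t := by
  have h1 : HasDerivAt (fun t : ℝ => 2 * t - 1) 2 t := by
    simpa using ((hasDerivAt_id t).const_mul (2:ℝ)).sub_const 1
  exact (hasDerivAt_T (2 * t - 1)).comp t h1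

/-- the way out -/
def fout (t : ℝ) : ℝ := 3 * T (2 * t)

/-- the way back -/
def fback (t : ℝ) : ℝ := 3 * (1 - T (2 * t - 1))

lemma fout_deriv (t : ℝ) : HasDerivAt fout (6 * deriv T (2 * t)) t := by
  have := (T2_deriv t).const_mul 3
  refine this.congr_deriv ?_
  ring

lemma fback_deriv (t : ℝ) : HasDerivAt fback (-6 * deriv T (2 * t - 1)) t := by
  have := ((T21_deriv t).const_sub 1).const_mul 3
  refine this.congr_deriv ?_
  ring

lemma continuous_dout : Continuous fun t : ℝ => 6 * deriv T (2 * t) :=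
  continuous_const.mul (continuous_deriv_T.comp (by fun_prop))

lemma continuous_dback : Continuous fun t : ℝ => -6 * deriv T (2 * t - 1) :=
  continuous_const.mul (continuous_deriv_T.comp (by fun_prop))

lemma continuous_fout : Continuous fout :=
  continuous_iff_continuousAt.2 fun t => (fout_deriv t).continuousAt

lemma continuous_fback : Continuous fback :=
  continuous_iff_continuousAt.2 fun t => (fback_deriv t).continuousAt

lemma fout_left {t : ℝ} (ht : t ≤ 0) : fout t = 0 := by
  unfold fout; rw [T_zero (by linarith)]; simp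

lemma fout_right {t : ℝ} (ht : 1 / 2 ≤ t) : fout t = 3 := by
  unfold fout; rw [T_one (by linarith)]; simp

lemma fback_left {t : ℝ} (ht : t ≤ 1 / 2) : fback t = 3 := by
  unfold fback; rw [T_zero (by linarith)]; simp

lemma fback_right {t : ℝ} (ht : 1 ≤ t) : fback t = 0 := by
  unfold fback; rw [T_one (by linarith)]; simp

lemma dout_right {t : ℝ} (ht : 1 / 2 ≤ t) : deriv T (2 * t) = 0 :=
  deriv_T_of_one_le (by linarith)

lemma dback_left {t : ℝ} (ht : t ≤ 1 / 2) : deriv T (2 * t - 1) = 0 :=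
  deriv_T_of_nonpos (by linarith)

/-- the constant signs -/
def one : ℕ → ℝ := fun _ => 1

lemma one_abs : ∀ n, |one n| ≤ 1 := fun _ => by simp [one]

lemma one_sq : ∀ n, one n ^ 2 = 1 := fun _ => by simp [one]

/-- the basic loop -/
def xb (e : ℕ → ℝ) (t : ℝ) : Fin 2 → ℝ :=
  ![fout t + fback t - 3, be e (fout t) + be one (fback t)]

/-- its derivative -/
def xb' (e : ℕ → ℝ) (t : ℝ) : Fin 2 → ℝ :=
  ![6 * deriv T (2 * t) + -6 * deriv T (2 * t - 1),
    deriv (be e) (fout t) * (6 * deriv T (2 * t)) +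
      deriv (be one) (fback t) * (-6 * deriv T (2 * t - 1))]

lemma xb_deriv {e : ℕ → ℝ} (he : ∀ n, |e n| ≤ 1) (t : ℝ) : HasDerivAt (xb e) (xb' e t) t := by
  apply hasDerivAt_vec
  · exact ((fout_deriv t).add (fback_deriv t)).sub_const 3
  · exact ((hasDerivAt_be he (fout t)).comp t (fout_deriv t)).add
      ((hasDerivAt_be one_abs (fback t)).comp t (fback_deriv t))

lemma continuous_xb' {e : ℕ → ℝ} (he : ∀ n, |e n| ≤ 1) : Continuous (xb' e) := by
  apply continuous_vec
  · exact continuous_dout.add continuous_dback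
  · exact (((continuous_deriv_be he).comp continuous_fout).mul continuous_dout).add
      (((continuous_deriv_be one_abs).comp continuous_fback).mul continuous_dback)

lemma xb_left (e : ℕ → ℝ) {t : ℝ} (ht : t ≤ 1 / 2) : xb e t = ![fout t, be e (fout t)] := by
  unfold xb
  rw [fback_left ht, be_three]
  simp

lemma xb_right (e : ℕ → ℝ) {t : ℝ} (ht : 1 / 2 ≤ t) :
    xb e t = ![fback t, be one (fback t)] := by
  unfold xb
  rw [fout_right ht, be_three]
  simp

lemma integral_left {e : ℕ → ℝ} (F : ℝ → ℝ) (hF : Continuous F) (l : Fin 2)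
    (h : ∀ s, A 0 ![s, be e s] l = F s) :
    ∫ t in (0:ℝ)..(1/2), xb' e t 0 * A 0 (xb e t) l = ∫ s in (0:ℝ)..3, F s := by
  have e1 : ∫ t in (0:ℝ)..(1/2), xb' e t 0 * A 0 (xb e t) l =
      ∫ t in (0:ℝ)..(1/2), (F ∘ fout) t * (6 * deriv T (2 * t)) := by
    apply intervalIntegral.integral_congr
    intro t ht
    rw [uIcc_of_le (by norm_num)] at ht
    simp only [Function.comp_apply]
    rw [xb_left e ht.2, h]
    simp only [xb', Matrix.cons_val_zero]
    rw [dback_left ht.2]
    ring
  rw [e1, intervalIntegral.integral_comp_mul_deriv (fun t _ => fout_deriv t)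
    continuous_dout.continuousOn hF, fout_left le_rfl, fout_right le_rfl]

lemma integral_right {e : ℕ → ℝ} (F : ℝ → ℝ) (hF : Continuous F) (l : Fin 2)
    (h : ∀ s, A 0 ![s, be one s] l = F s) :
    ∫ t in (1/2:ℝ)..1, xb' e t 0 * A 0 (xb e t) l = -∫ s in (0:ℝ)..3, F s := by
  have e1 : ∫ t in (1/2:ℝ)..1, xb' e t 0 * A 0 (xb e t) l =
      ∫ t in (1/2:ℝ)..1, (F ∘ fback) t * (-6 * deriv T (2 * t - 1)) := by
    apply intervalIntegral.integral_congr
    intro t ht
    rw [uIcc_of_le (by norm_num)] at ht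
    simp only [Function.comp_apply]
    rw [xb_right e ht.1, h]
    simp only [xb', Matrix.cons_val_zero]
    rw [dout_right ht.1]
    ring
  rw [e1, intervalIntegral.integral_comp_mul_deriv (fun t _ => fback_deriv t)
    continuous_dback.continuousOn hF, fback_left le_rfl, fback_right le_rfl,
    intervalIntegral.integral_symm]

lemma basic_loop {e : ℕ → ℝ} (he : ∀ n, |e n| ≤ 1) (he2 : ∀ n, e n ^ 2 = 1) :
    IsLoop ![2 / 3 * (II * ∑' n, e n ^ 3 * ((8:ℝ) ^ (n + 1))⁻¹) -
      2 / 3 * (II * ∑' n, one n ^ 3 * ((8:ℝ) ^ (n + 1))⁻¹), 0] := by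
  refine ⟨xb e, xb' e, xb_deriv he, continuous_xb' he, ?_, ?_, ?_, ?_⟩
  · intro t ht
    rw [xb_left e (by linarith), fout_left ht, be_zero]
    ext l
    fin_cases l <;> rfl
  · intro t ht
    rw [xb_right e (by linarith), fback_right ht, be_zero]
    ext l
    fin_cases l <;> rfl
  · intro t
    rcases le_total t (1 / 2) with ht | ht
    · rw [xb_left e ht]; exact hh_graph he2 _
    · rw [xb_right e ht]; exact hh_graph one_sq _
  · intro l
    have hcx : Continuous (xb e) := continuous_iff_continuousAt.2 fun t =>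
      (xb_deriv he t).continuousAt
    have hcont : Continuous fun t : ℝ => xb' e t 0 * A 0 (xb e t) l :=
      ((continuous_apply 0).comp (continuous_xb' he)).mul ((continuous_A0 l).comp hcx)
    rw [← intervalIntegral.integral_add_adjacent_intervals (hcont.intervalIntegrable _ _)
      (hcont.intervalIntegrable _ _) (b := 1 / 2)]
    have cB : ∀ {e : ℕ → ℝ}, (∀ n, |e n| ≤ 1) → Continuous (fun s => 2 / 3 * BB e s ^ 3) :=
      fun he => continuous_const.mul ((BB_smooth he).continuous.pow 3)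
    have cG : Continuous (fun s : ℝ => s ^ 2 * G s ^ 2 / 4) := by
      have := G_smooth.continuous
      fun_prop
    fin_cases l
    · have i1 := integral_left (e := e) (fun s => 2 / 3 * BB e s ^ 3) (cB he) 0
        (fun s => by rw [A0_graph he he2]; rfl)
      have i2 := integral_right (e := e) (fun s => 2 / 3 * BB one s ^ 3) (cB one_abs) 0
        (fun s => by rw [A0_graph one_abs one_sq]; rfl)
      rw [intervalIntegral.integral_const_mul, integral_BB_cube he] at i1
      rw [intervalIntegral.integral_const_mul, integral_BB_cube one_abs] at i2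
      simp only [Fin.zero_eta, Matrix.cons_val_zero]
      rw [i1, i2]
      ring
    · have i1 := integral_left (e := e) (fun s => s ^ 2 * G s ^ 2 / 4) cG 1
        (fun s => by rw [A0_graph he he2]; rfl)
      have i2 := integral_right (e := e) (fun s => s ^ 2 * G s ^ 2 / 4) cG 1
        (fun s => by rw [A0_graph one_abs one_sq]; rfl)
      simp only [Fin.mk_one, Matrix.cons_val_one]
      rw [i1, i2]
      simp

/-- signs attached to a set of indices -/
lemma loop_of_set (P : ℕ → Prop) [DecidablePred P] :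
    IsLoop ![-(4 / 3 * II) * ∑' n, (if P n then 1 else 0) * ((8:ℝ) ^ (n + 1))⁻¹, 0] := by
  set e : ℕ → ℝ := fun n => if P n then -1 else 1 with he
  have h1 : ∀ n, |e n| ≤ 1 := by
    intro n
    simp only [he]
    split_ifs <;> simp
  have h2 : ∀ n, e n ^ 2 = 1 := by
    intro n
    simp only [he]
    split_ifs <;> simp
  have h := basic_loop h1 h2
  have s1 : Summable fun n => e n ^ 3 * ((8:ℝ) ^ (n + 1))⁻¹ := by
    apply Summable.of_norm_bounded (g := fun n : ℕ => ((8:ℝ) ^ (n + 1))⁻¹) summable_eight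
    intro n
    rw [norm_mul, norm_pow, Real.norm_eq_abs, Real.norm_of_nonneg (by positivity)]
    have : |e n| ^ 3 ≤ 1 := pow_le_one₀ (abs_nonneg _) (h1 n)
    calc |e n| ^ 3 * ((8:ℝ) ^ (n + 1))⁻¹ ≤ 1 * ((8:ℝ) ^ (n + 1))⁻¹ := by gcongr
      _ = _ := one_mul _
  have s2 : Summable fun n => one n ^ 3 * ((8:ℝ) ^ (n + 1))⁻¹ := by
    simpa [one] using summable_eight
  convert h using 2
  rw [← mul_sub, ← mul_sub, ← s1.tsum_sub s2]
  have : ∀ n, e n ^ 3 * ((8:ℝ) ^ (n + 1))⁻¹ - one n ^ 3 * ((8:ℝ) ^ (n + 1))⁻¹ =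
      -2 * ((if P n then 1 else 0) * ((8:ℝ) ^ (n + 1))⁻¹) := by
    intro n
    simp only [he, one]
    split_ifs <;> ring
  simp only [this]
  rw [tsum_mul_left]
  ring

lemma loop_digits (d : ℕ → Fin 8) : IsLoop ![-(4 / 3 * II) * Real.ofDigits d, 0] := by
  have h : ∀ j ∈ Finset.range 7, IsLoop ![-(4 / 3 * II) *
      ∑' n, (if j < (d n : ℕ) then 1 else 0) * ((8:ℝ) ^ (n + 1))⁻¹, 0] :=
    fun j _ => loop_of_set (fun n => j < (d n : ℕ))
  have h2 := IsLoop.sum (Finset.range 7) h
  convert h2 using 1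
  have hs : ∀ j : ℕ, Summable fun n => (if j < (d n : ℕ) then 1 else 0) *
      ((8:ℝ) ^ (n + 1))⁻¹ := by
    intro j
    apply Summable.of_norm_bounded (g := fun n : ℕ => ((8:ℝ) ^ (n + 1))⁻¹) summable_eight
    intro n
    rw [norm_mul, Real.norm_of_nonneg (by positivity : (0:ℝ) ≤ ((8:ℝ) ^ (n + 1))⁻¹)]
    have : ‖(if j < (d n : ℕ) then (1:ℝ) else 0)‖ ≤ 1 := by split_ifs <;> simp
    calc _ ≤ 1 * ((8:ℝ) ^ (n + 1))⁻¹ := by gcongr
      _ = _ := one_mul _
  have e : Real.ofDigits d = ∑ j ∈ Finset.range 7,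
      ∑' n, (if j < (d n : ℕ) then 1 else 0) * ((8:ℝ) ^ (n + 1))⁻¹ := by
    rw [← Summable.tsum_finsetSum fun j _ => hs j]
    unfold Real.ofDigits
    congr 1
    funext n
    rw [← Finset.sum_mul]
    unfold Real.ofDigitsTerm
    have : ∑ j ∈ Finset.range 7, (if j < (d n : ℕ) then (1:ℝ) else 0) = (d n : ℕ) := by
      have key : ∀ k : Fin 8, ((Finset.range 7).filter (fun j => j < (k : ℕ))).card = (k : ℕ) := by
        decide
      rw [Finset.sum_boole, key]
    rw [this]
    norm_num
  ext l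
  rw [Finset.sum_apply]
  fin_cases l
  · simp only [Fin.zero_eta, Matrix.cons_val_zero]
    rw [e, Finset.mul_sum]
  · simp

lemma loop_unit {x : ℝ} (h0 : 0 ≤ x) (h1 : x < 1) : IsLoop ![-(4 / 3 * II) * x, 0] := by
  have h := loop_digits (Real.digits x 8)
  rwa [Real.ofDigits_digits (by norm_num) ⟨h0, h1⟩] at h

lemma loop_nonneg {x : ℝ} (h0 : 0 ≤ x) : IsLoop ![-(4 / 3 * II) * x, 0] := by
  obtain ⟨n, hn⟩ := exists_nat_gt x
  have hn0 : (0:ℝ) < n := lt_of_le_of_lt h0 hn
  have h := (loop_unit (x := x / n) (by positivity) (by rw [div_lt_one hn0]; exact hn)).nsmul n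
  convert h using 1
  ext l
  fin_cases l
  · simp
    field_simp
  · simp

lemma loop_first (r : ℝ) : IsLoop ![r, 0] := by
  have hI := II_pos
  rcases le_total r 0 with hr | hr
  · have h := loop_nonneg (x := -r / (4 / 3 * II)) (by
      apply div_nonneg (by linarith) (by positivity))
    convert h using 2
    field_simp
  · have h := (loop_nonneg (x := r / (4 / 3 * II)) (by positivity)).neg
    convert h using 1
    ext l
    fin_cases l
    · simp
      field_simp
    · simp

/-- every vector is the holonomy of a loop -/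
theorem loop_all (w : Fin 2 → ℝ) : IsLoop w := by
  have h := (loop_first (w 0)).add (loop_first (-w 1)).swap
  convert h using 1
  ext l
  fin_cases l
  · simp
  · simp

end

end Pool.Agent.H521R3.Sard
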