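import Pool.Agent.H521R3.SardForms

/-!
The rank two distribution on `ℝ² × ℝ²` is bracket generating.
-/

namespace Pool.Agent.H521R3.Sard

open Set MeasureTheory Filter Topology
open scoped ContDiff
open Pool.Agent.Results.MP_77ffad_gt.NoRegularValue (hframe IsIteratedBracket BracketGenerating)

noncomputable section

/-- a map of the plane given by its two components -/
def mk (P Q : ℝ → ℝ → ℝ) (x : Fin 2 → ℝ) : Fin 2 → ℝ := ![P (x 0) (x 1), Q (x 0) (x 1)]

lemma mk_smooth {P Q : ℝ → ℝ → ℝ} (hP : ContDiff ℝ ∞ (fun p : ℝ × ℝ => P p.1 p.2))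
    (hQ : ContDiff ℝ ∞ (fun p : ℝ × ℝ => Q p.1 p.2)) : ContDiff ℝ ∞ (mk P Q) := by
  rw [contDiff_pi]
  intro l
  unfold mk
  fin_cases l
  · exact hP.comp ((proj_smooth 0).prodMk (proj_smooth 1))
  · exact hQ.comp ((proj_smooth 0).prodMk (proj_smooth 1))

lemma dd1_mk {P Q P' Q' : ℝ → ℝ → ℝ} (hs : ContDiff ℝ ∞ (mk P Q))
    (hP : ∀ a b, HasDerivAt (fun s => P a s) (P' a b) b)
    (hQ : ∀ a b, HasDerivAt (fun s => Q a s) (Q' a b) b) : dd 1 (mk P Q) = mk P' Q' := by
  funext x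
  apply dd_eq 1 hs
  have e0 : ∀ s : ℝ, (x + s • (Pi.single 1 1 : Fin 2 → ℝ)) 0 = x 0 := by intro s; simp
  have e1 : ∀ s : ℝ, (x + s • (Pi.single 1 1 : Fin 2 → ℝ)) 1 = x 1 + s := by intro s; simp
  intro l
  fin_cases l
  · show HasDerivAt (fun s : ℝ => P ((x + s • (Pi.single 1 1 : Fin 2 → ℝ)) 0)
      ((x + s • (Pi.single 1 1 : Fin 2 → ℝ)) 1)) (P' (x 0) (x 1)) 0
    simp only [e0, e1]
    have h := hP (x 0) (x 1 + 0)
    have h2 := h.comp_const_add (x 1) 0
    simpa using h2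
  · show HasDerivAt (fun s : ℝ => Q ((x + s • (Pi.single 1 1 : Fin 2 → ℝ)) 0)
      ((x + s • (Pi.single 1 1 : Fin 2 → ℝ)) 1)) (Q' (x 0) (x 1)) 0
    simp only [e0, e1]
    have h := hQ (x 0) (x 1 + 0)
    have h2 := h.comp_const_add (x 1) 0
    simpa using h2

lemma dd0_mk {P Q P' Q' : ℝ → ℝ → ℝ} (hs : ContDiff ℝ ∞ (mk P Q))
    (hP : ∀ a b, HasDerivAt (fun s => P s b) (P' a b) a)
    (hQ : ∀ a b, HasDerivAt (fun s => Q s b) (Q' a b) a) : dd 0 (mk P Q) = mk P' Q' := by
  funext x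
  apply dd_eq 0 hs
  have e0 : ∀ s : ℝ, (x + s • (Pi.single 0 1 : Fin 2 → ℝ)) 0 = x 0 + s := by intro s; simp
  have e1 : ∀ s : ℝ, (x + s • (Pi.single 0 1 : Fin 2 → ℝ)) 1 = x 1 := by intro s; simp
  intro l
  fin_cases l
  · show HasDerivAt (fun s : ℝ => P ((x + s • (Pi.single 0 1 : Fin 2 → ℝ)) 0)
      ((x + s • (Pi.single 0 1 : Fin 2 → ℝ)) 1)) (P' (x 0) (x 1)) 0
    simp only [e0, e1]
    have h := hP (x 0 + 0) (x 1)
    have h2 := h.comp_const_add (x 0) 0
    simpa using h2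
  · show HasDerivAt (fun s : ℝ => Q ((x + s • (Pi.single 0 1 : Fin 2 → ℝ)) 0)
      ((x + s • (Pi.single 0 1 : Fin 2 → ℝ)) 1)) (Q' (x 0) (x 1)) 0
    simp only [e0, e1]
    have h := hQ (x 0 + 0) (x 1)
    have h2 := h.comp_const_add (x 0) 0
    simpa using h2

lemma hp (n : ℕ) (c t : ℝ) : HasDerivAt (fun s : ℝ => c * s ^ n) (c * (n * t ^ (n - 1))) t := by
  simpa using (hasDerivAt_pow n t).const_mul c

/-! The half plane `{x 1 < 1}`. -/

/-- the open half plane `x 1 < 1` -/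
def U1 : Set (Fin 2 → ℝ) := {x | x 1 < 1}

/-- the open half plane `x 0 < 1` -/
def U0 : Set (Fin 2 → ℝ) := {x | x 0 < 1}

lemma isOpen_U1 : IsOpen U1 := isOpen_lt (continuous_apply 1) continuous_const

lemma isOpen_U0 : IsOpen U0 := isOpen_lt (continuous_apply 0) continuous_const

/-- the curvature on the half plane `x 1 < 1` -/
def p0 : (Fin 2 → ℝ) → (Fin 2 → ℝ) :=
  mk (fun a b => a ^ 3 * b ^ 2 - a ^ 3 * G a) (fun a b => a ^ 2 * b ^ 3 - a ^ 2 * G a * b)

/-- first derivative -/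
def p1 : (Fin 2 → ℝ) → (Fin 2 → ℝ) :=
  mk (fun a b => a ^ 3 * (2 * b)) (fun a b => a ^ 2 * (3 * b ^ 2) - a ^ 2 * G a)

/-- second derivative -/
def p2 : (Fin 2 → ℝ) → (Fin 2 → ℝ) := mk (fun a _ => a ^ 3 * 2) (fun a b => a ^ 2 * (6 * b))

/-- third derivative -/
def p3 : (Fin 2 → ℝ) → (Fin 2 → ℝ) := mk (fun _ _ => 0) (fun a _ => a ^ 2 * 6)

lemma hh_eqOn_U1 : EqOn hh p0 U1 := by
  intro x hx
  have h : G (x 1) = 0 := G_zero (le_of_lt hx)
  ext l
  fin_cases l
  · simp [hh, p0, mk, Hh, h]; ring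
  · simp [hh, p0, mk, Hh, h]; ring

lemma p0_smooth : ContDiff ℝ ∞ p0 := by
  have hG : ContDiff ℝ ∞ (fun p : ℝ × ℝ => G p.1) := G_smooth.comp contDiff_fst
  have hx : ContDiff ℝ ∞ (fun p : ℝ × ℝ => p.1) := contDiff_fst
  have hy : ContDiff ℝ ∞ (fun p : ℝ × ℝ => p.2) := contDiff_snd
  exact mk_smooth (((hx.pow 3).mul (hy.pow 2)).sub ((hx.pow 3).mul hG))
    (((hx.pow 2).mul (hy.pow 3)).sub (((hx.pow 2).mul hG).mul hy))

lemma p1_smooth : ContDiff ℝ ∞ p1 := by
  have hG : ContDiff ℝ ∞ (fun p : ℝ × ℝ => G p.1) := G_smooth.comp contDiff_fst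
  have hx : ContDiff ℝ ∞ (fun p : ℝ × ℝ => p.1) := contDiff_fst
  have hy : ContDiff ℝ ∞ (fun p : ℝ × ℝ => p.2) := contDiff_snd
  exact mk_smooth ((hx.pow 3).mul (contDiff_const.mul hy))
    (((hx.pow 2).mul (contDiff_const.mul (hy.pow 2))).sub ((hx.pow 2).mul hG))

lemma p2_smooth : ContDiff ℝ ∞ p2 := by
  have hx : ContDiff ℝ ∞ (fun p : ℝ × ℝ => p.1) := contDiff_fst
  have hy : ContDiff ℝ ∞ (fun p : ℝ × ℝ => p.2) := contDiff_snd
  exact mk_smooth ((hx.pow 3).mul contDiff_const) ((hx.pow 2).mul (contDiff_const.mul hy))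

lemma p3_smooth : ContDiff ℝ ∞ p3 := by
  have hx : ContDiff ℝ ∞ (fun p : ℝ × ℝ => p.1) := contDiff_fst
  exact mk_smooth contDiff_const ((hx.pow 2).mul contDiff_const)

lemma dd1_p0 : dd 1 p0 = p1 := by
  apply dd1_mk p0_smooth
  · intro a b
    have h := (hp 2 (a ^ 3) b).sub (hasDerivAt_const b (a ^ 3 * G a))
    refine h.congr_deriv ?_
    norm_num
  · intro a b
    have h := (hp 3 (a ^ 2) b).sub ((hasDerivAt_id b).const_mul (a ^ 2 * G a))
    refine h.congr_deriv ?_
    norm_num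

lemma dd1_p1 : dd 1 p1 = p2 := by
  apply dd1_mk p1_smooth
  · intro a b
    have h := ((hasDerivAt_id b).const_mul 2).const_mul (a ^ 3)
    refine h.congr_deriv ?_
    norm_num
  · intro a b
    have h := (((hp 2 3 b).const_mul (a ^ 2))).sub (hasDerivAt_const b (a ^ 2 * G a))
    refine h.congr_deriv ?_
    push_cast
    ring

lemma dd1_p2 : dd 1 p2 = p3 := by
  apply dd1_mk p2_smooth
  · intro a b
    exact hasDerivAt_const b _
  · intro a b
    have h := ((hasDerivAt_id b).const_mul 6).const_mul (a ^ 2)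
    refine h.congr_deriv ?_
    norm_num

lemma dd0_p3 : dd 0 p3 = mk (fun _ _ => 0) (fun a _ => 12 * a) := by
  apply dd0_mk p3_smooth
  · intro a b
    exact hasDerivAt_const a _
  · intro a b
    have h := (hasDerivAt_pow 2 a).mul_const 6
    refine h.congr_deriv ?_
    norm_num
    ring

lemma dd0_p3' : dd 0 (mk (fun _ _ => 0) (fun a _ => 12 * a)) = mk (fun _ _ => 0) fun _ _ => 12 := by
  apply dd0_mk (mk_smooth contDiff_const (contDiff_const.mul contDiff_fst))
  · intro a b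
    exact hasDerivAt_const a _
  · intro a b
    have h := (hasDerivAt_id a).const_mul 12
    refine h.congr_deriv ?_
    norm_num

lemma dd0_p2 : dd 0 p2 = mk (fun a _ => 6 * a ^ 2) (fun a b => 12 * a * b) := by
  apply dd0_mk p2_smooth
  · intro a b
    have h := (hasDerivAt_pow 3 a).mul_const 2
    refine h.congr_deriv ?_
    norm_num
    ring
  · intro a b
    have h := (hasDerivAt_pow 2 a).mul_const (6 * b)
    refine h.congr_deriv ?_
    norm_num
    ring

lemma dd0_p2' : dd 0 (mk (fun a _ => 6 * a ^ 2) (fun a b => 12 * a * b)) =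
    mk (fun a _ => 12 * a) (fun _ b => 12 * b) := by
  apply dd0_mk (mk_smooth (contDiff_const.mul (contDiff_fst.pow 2))
    ((contDiff_const.mul contDiff_fst).mul contDiff_snd))
  · intro a b
    have h := (hasDerivAt_pow 2 a).const_mul 6
    refine h.congr_deriv ?_
    norm_num
    ring
  · intro a b
    have h := ((hasDerivAt_id a).const_mul 12).mul_const b
    refine h.congr_deriv ?_
    norm_num

lemma dd0_p2'' : dd 0 (mk (fun a _ => 12 * a) (fun _ b => 12 * b)) =
    mk (fun _ _ => 12) (fun _ _ => 0) := by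
  apply dd0_mk (mk_smooth (contDiff_const.mul contDiff_fst) (contDiff_const.mul contDiff_snd))
  · intro a b
    have h := (hasDerivAt_id a).const_mul 12
    refine h.congr_deriv ?_
    norm_num
  · intro a b
    exact hasDerivAt_const a _

/-! The half plane `{x 0 < 1}`. -/

/-- the curvature on the half plane `x 0 < 1` -/
def q0 : (Fin 2 → ℝ) → (Fin 2 → ℝ) :=
  mk (fun a b => b ^ 2 * a ^ 3 - b ^ 2 * G b * a) (fun a b => b ^ 3 * a ^ 2 - b ^ 3 * G b)

/-- first derivative -/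
def q1 : (Fin 2 → ℝ) → (Fin 2 → ℝ) :=
  mk (fun a b => b ^ 2 * (3 * a ^ 2) - b ^ 2 * G b) (fun a b => b ^ 3 * (2 * a))

/-- second derivative -/
def q2 : (Fin 2 → ℝ) → (Fin 2 → ℝ) := mk (fun a b => b ^ 2 * (6 * a)) (fun _ b => b ^ 3 * 2)

/-- third derivative -/
def q3 : (Fin 2 → ℝ) → (Fin 2 → ℝ) := mk (fun _ b => b ^ 2 * 6) (fun _ _ => 0)

lemma hh_eqOn_U0 : EqOn hh q0 U0 := by
  intro x hx
  have h : G (x 0) = 0 := G_zero (le_of_lt hx)
  ext l
  fin_cases l
  · simp [hh, q0, mk, Hh, h]; ring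
  · simp [hh, q0, mk, Hh, h]; ring

lemma q0_smooth : ContDiff ℝ ∞ q0 := by
  have hG : ContDiff ℝ ∞ (fun p : ℝ × ℝ => G p.2) := G_smooth.comp contDiff_snd
  have hx : ContDiff ℝ ∞ (fun p : ℝ × ℝ => p.1) := contDiff_fst
  have hy : ContDiff ℝ ∞ (fun p : ℝ × ℝ => p.2) := contDiff_snd
  exact mk_smooth (((hy.pow 2).mul (hx.pow 3)).sub (((hy.pow 2).mul hG).mul hx))
    (((hy.pow 3).mul (hx.pow 2)).sub ((hy.pow 3).mul hG))

lemma q1_smooth : ContDiff ℝ ∞ q1 := by
  have hG : ContDiff ℝ ∞ (fun p : ℝ × ℝ => G p.2) := G_smooth.comp contDiff_snd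
  have hx : ContDiff ℝ ∞ (fun p : ℝ × ℝ => p.1) := contDiff_fst
  have hy : ContDiff ℝ ∞ (fun p : ℝ × ℝ => p.2) := contDiff_snd
  exact mk_smooth (((hy.pow 2).mul (contDiff_const.mul (hx.pow 2))).sub ((hy.pow 2).mul hG))
    ((hy.pow 3).mul (contDiff_const.mul hx))

lemma q2_smooth : ContDiff ℝ ∞ q2 := by
  have hx : ContDiff ℝ ∞ (fun p : ℝ × ℝ => p.1) := contDiff_fst
  have hy : ContDiff ℝ ∞ (fun p : ℝ × ℝ => p.2) := contDiff_snd
  exact mk_smooth ((hy.pow 2).mul (contDiff_const.mul hx)) ((hy.pow 3).mul contDiff_const)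

lemma q3_smooth : ContDiff ℝ ∞ q3 := by
  have hy : ContDiff ℝ ∞ (fun p : ℝ × ℝ => p.2) := contDiff_snd
  exact mk_smooth ((hy.pow 2).mul contDiff_const) contDiff_const

lemma dd0_q0 : dd 0 q0 = q1 := by
  apply dd0_mk q0_smooth
  · intro a b
    have h := (hp 3 (b ^ 2) a).sub ((hasDerivAt_id a).const_mul (b ^ 2 * G b))
    refine h.congr_deriv ?_
    norm_num
  · intro a b
    have h := (hp 2 (b ^ 3) a).sub (hasDerivAt_const a (b ^ 3 * G b))
    refine h.congr_deriv ?_
    norm_num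

lemma dd0_q1 : dd 0 q1 = q2 := by
  apply dd0_mk q1_smooth
  · intro a b
    have h := (((hp 2 3 a).const_mul (b ^ 2))).sub (hasDerivAt_const a (b ^ 2 * G b))
    refine h.congr_deriv ?_
    push_cast
    ring
  · intro a b
    have h := ((hasDerivAt_id a).const_mul 2).const_mul (b ^ 3)
    refine h.congr_deriv ?_
    norm_num

lemma dd0_q2 : dd 0 q2 = q3 := by
  apply dd0_mk q2_smooth
  · intro a b
    have h := ((hasDerivAt_id a).const_mul 6).const_mul (b ^ 2)
    refine h.congr_deriv ?_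
    norm_num
  · intro a b
    exact hasDerivAt_const a _

lemma dd1_q3 : dd 1 q3 = mk (fun _ b => 12 * b) (fun _ _ => 0) := by
  apply dd1_mk q3_smooth
  · intro a b
    have h := (hasDerivAt_pow 2 b).mul_const 6
    refine h.congr_deriv ?_
    norm_num
    ring
  · intro a b
    exact hasDerivAt_const b _

lemma dd1_q3' : dd 1 (mk (fun _ b => 12 * b) (fun _ _ => 0)) = mk (fun _ _ => 12) fun _ _ => 0 := by
  apply dd1_mk (mk_smooth (contDiff_const.mul contDiff_snd) contDiff_const)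
  · intro a b
    have h := (hasDerivAt_id b).const_mul 12
    refine h.congr_deriv ?_
    norm_num
  · intro a b
    exact hasDerivAt_const b _

lemma dd1_q2 : dd 1 q2 = mk (fun a b => 12 * b * a) (fun _ b => 6 * b ^ 2) := by
  apply dd1_mk q2_smooth
  · intro a b
    have h := (hasDerivAt_pow 2 b).mul_const (6 * a)
    refine h.congr_deriv ?_
    norm_num
    ring
  · intro a b
    have h := (hasDerivAt_pow 3 b).mul_const 2
    refine h.congr_deriv ?_
    norm_num
    ring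

lemma dd1_q2' : dd 1 (mk (fun a b => 12 * b * a) (fun _ b => 6 * b ^ 2)) =
    mk (fun a _ => 12 * a) (fun _ b => 12 * b) := by
  apply dd1_mk (mk_smooth ((contDiff_const.mul contDiff_snd).mul contDiff_fst)
    (contDiff_const.mul (contDiff_snd.pow 2)))
  · intro a b
    have h := ((hasDerivAt_id b).const_mul 12).mul_const a
    refine h.congr_deriv ?_
    norm_num
  · intro a b
    have h := (hasDerivAt_pow 2 b).const_mul 6
    refine h.congr_deriv ?_
    norm_num
    ring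

lemma dd1_q2'' : dd 1 (mk (fun a _ => 12 * a) (fun _ b => 12 * b)) =
    mk (fun _ _ => 0) (fun _ _ => 12) := by
  apply dd1_mk (mk_smooth (contDiff_const.mul contDiff_fst) (contDiff_const.mul contDiff_snd))
  · intro a b
    exact hasDerivAt_const b _
  · intro a b
    have h := (hasDerivAt_id b).const_mul 12
    refine h.congr_deriv ?_
    norm_num

/-! The rest of the plane. -/

/-- the scalar factor of the curvature -/
def DD (x : Fin 2 → ℝ) : ℝ := (x 1 ^ 2 - G (x 0)) * (x 0 ^ 2 - G (x 1))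

lemma DD_smooth : ContDiff ℝ ∞ DD :=
  (((proj_smooth 1).pow 2).sub (G_smooth.comp (proj_smooth 0))).mul
    (((proj_smooth 0).pow 2).sub (G_smooth.comp (proj_smooth 1)))

lemma hh_eq (x : Fin 2 → ℝ) : hh x = DD x • x := by
  ext l
  fin_cases l
  · simp [hh, Hh, DD]; ring
  · simp [hh, Hh, DD]; ring

lemma dd_hh (i : Fin 2) (x : Fin 2 → ℝ) :
    dd i hh x = DD x • Pi.single i 1 + (fderiv ℝ DD x (Pi.single i 1)) • x := by
  have h1 : hh = fun x => DD x • x := funext hh_eq
  have h2 : HasFDerivAt DD (fderiv ℝ DD x) x := (DD_smooth.differentiable (by simp) x).hasFDerivAt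
  have h3 := h2.smul (hasFDerivAt_id x)
  unfold dd
  rw [h1]
  have h4 : HasFDerivAt (fun x => DD x • x) _ x := h3
  rw [h4.fderiv]
  simp

lemma DD_ne {x : Fin 2 → ℝ} (h1 : x ∉ U1) (h0 : x ∉ U0) : DD x ≠ 0 := by
  have a1 : 1 ≤ x 1 := not_lt.1 h1
  have a0 : 1 ≤ x 0 := not_lt.1 h0
  have g0 := G_le (x 0)
  have g1 := G_le (x 1)
  unfold DD
  apply mul_ne_zero
  · nlinarith
  · nlinarith

theorem bracketGenerating : BracketGenerating (hframe A) := by
  have bh := brk_hh
  have b1 := brk_dd 1 contDiff_hh bh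
  have s1 := dd_smooth 1 contDiff_hh
  have b2 := brk_dd 1 s1 b1
  have s2 := dd_smooth 1 s1
  have b3 := brk_dd 1 s2 b2
  have s3 := dd_smooth 1 s2
  have b30 := brk_dd 0 s3 b3
  have s30 := dd_smooth 0 s3
  have b300 := brk_dd 0 s30 b30
  have b20 := brk_dd 0 s2 b2
  have s20 := dd_smooth 0 s2
  have b200 := brk_dd 0 s20 b20
  have s200 := dd_smooth 0 s20
  have b2000 := brk_dd 0 s200 b200
  have d1 := brk_dd 0 contDiff_hh bh
  have t1 := dd_smooth 0 contDiff_hh
  have d2 := brk_dd 0 t1 d1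
  have t2 := dd_smooth 0 t1
  have d3 := brk_dd 0 t2 d2
  have t3 := dd_smooth 0 t2
  have d31 := brk_dd 1 t3 d3
  have t31 := dd_smooth 1 t3
  have d311 := brk_dd 1 t31 d31
  have d21 := brk_dd 1 t2 d2
  have t21 := dd_smooth 1 t2
  have d211 := brk_dd 1 t21 d21
  have t211 := dd_smooth 1 t21
  have d2111 := brk_dd 1 t211 d211
  intro q
  set S := Submodule.span ℝ {v | ∃ Y, IsIteratedBracket (hframe A) Y ∧ Y q = v} with hS
  have hmem : ∀ {Y}, IsIteratedBracket (hframe A) Y → Y q ∈ S := fun {Y} hY =>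
    Submodule.subset_span ⟨Y, hY, rfl⟩
  have hkey : ((0 : Fin 2 → ℝ), (Pi.single 0 1 : Fin 2 → ℝ)) ∈ S ∧
      ((0 : Fin 2 → ℝ), (Pi.single 1 1 : Fin 2 → ℝ)) ∈ S := by
    by_cases h1 : q.1 ∈ U1
    · have e1 := dd_congr 1 isOpen_U1 hh_eqOn_U1
      rw [dd1_p0] at e1
      have e2 := dd_congr 1 isOpen_U1 e1
      rw [dd1_p1] at e2
      have e3 := dd_congr 1 isOpen_U1 e2
      rw [dd1_p2] at e3
      have e30 := dd_congr 0 isOpen_U1 e3
      rw [dd0_p3] at e30
      have e300 := dd_congr 0 isOpen_U1 e30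
      rw [dd0_p3'] at e300
      have e20 := dd_congr 0 isOpen_U1 e2
      rw [dd0_p2] at e20
      have e200 := dd_congr 0 isOpen_U1 e20
      rw [dd0_p2'] at e200
      have e2000 := dd_congr 0 isOpen_U1 e200
      rw [dd0_p2''] at e2000
      constructor
      · have h := S.smul_mem (1 / 12 : ℝ) (hmem b2000)
        convert h using 1
        refine Prod.ext (by simp [vert]) (funext fun l => ?_)
        simp only [vert, e2000 h1]
        fin_cases l <;> simp [mk]
      · have h := S.smul_mem (1 / 12 : ℝ) (hmem b300)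
        convert h using 1
        refine Prod.ext (by simp [vert]) (funext fun l => ?_)
        simp only [vert, e300 h1]
        fin_cases l <;> simp [mk]
    · by_cases h0 : q.1 ∈ U0
      · have e1 := dd_congr 0 isOpen_U0 hh_eqOn_U0
        rw [dd0_q0] at e1
        have e2 := dd_congr 0 isOpen_U0 e1
        rw [dd0_q1] at e2
        have e3 := dd_congr 0 isOpen_U0 e2
        rw [dd0_q2] at e3
        have e31 := dd_congr 1 isOpen_U0 e3
        rw [dd1_q3] at e31
        have e311 := dd_congr 1 isOpen_U0 e31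
        rw [dd1_q3'] at e311
        have e21 := dd_congr 1 isOpen_U0 e2
        rw [dd1_q2] at e21
        have e211 := dd_congr 1 isOpen_U0 e21
        rw [dd1_q2'] at e211
        have e2111 := dd_congr 1 isOpen_U0 e211
        rw [dd1_q2''] at e2111
        constructor
        · have h := S.smul_mem (1 / 12 : ℝ) (hmem d311)
          convert h using 1
          refine Prod.ext (by simp [vert]) (funext fun l => ?_)
          simp only [vert, e311 h0]
          fin_cases l <;> simp [mk]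
        · have h := S.smul_mem (1 / 12 : ℝ) (hmem d2111)
          convert h using 1
          refine Prod.ext (by simp [vert]) (funext fun l => ?_)
          simp only [vert, e2111 h0]
          fin_cases l <;> simp [mk]
      · have hD := DD_ne h1 h0
        have hx : ((0 : Fin 2 → ℝ), q.1) ∈ S := by
          have h := S.smul_mem (DD q.1)⁻¹ (hmem bh)
          convert h using 1
          refine Prod.ext (by simp [vert]) ?_
          show q.1 = (DD q.1)⁻¹ • hh q.1
          rw [hh_eq, smul_smul, inv_mul_cancel₀ hD, one_smul]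
        have hi : ∀ i : Fin 2, IsIteratedBracket (hframe A) (vert (dd i hh)) →
            ((0 : Fin 2 → ℝ), (Pi.single i 1 : Fin 2 → ℝ)) ∈ S := by
          intro i hbi
          have h := S.smul_mem (DD q.1)⁻¹ (S.sub_mem (hmem hbi)
            (S.smul_mem (fderiv ℝ DD q.1 (Pi.single i 1)) hx))
          convert h using 1
          refine Prod.ext (by simp [vert]) ?_
          show _ = (DD q.1)⁻¹ • (dd i hh q.1 - (fderiv ℝ DD q.1 (Pi.single i 1)) • q.1)
          rw [dd_hh, add_sub_cancel_right, smul_smul, inv_mul_cancel₀ hD, one_smul]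
        exact ⟨hi 0 d1, hi 1 b1⟩
  have hvert : ∀ b : Fin 2 → ℝ, ((0 : Fin 2 → ℝ), b) ∈ S := by
    intro b
    have e : ((0 : Fin 2 → ℝ), b) = b 0 • ((0 : Fin 2 → ℝ), (Pi.single 0 1 : Fin 2 → ℝ)) +
        b 1 • ((0 : Fin 2 → ℝ), (Pi.single 1 1 : Fin 2 → ℝ)) := by
      refine Prod.ext (by simp) (funext fun l => ?_)
      fin_cases l <;> simp
    rw [e]
    exact S.add_mem (S.smul_mem _ hkey.1) (S.smul_mem _ hkey.2)
  rw [Submodule.eq_top_iff']
  intro v
  have e : v = (∑ i, v.1 i • hframe A i q) + (0, v.2 - ∑ i, v.1 i • A i q.1) := by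
    refine Prod.ext (funext fun j => ?_) (funext fun l => ?_)
    · rw [Prod.fst_add, Pi.add_apply, Prod.fst_sum, Finset.sum_apply, Finset.sum_eq_single j]
      · simp [hframe]
      · intro b _ hb
        simp [hframe, hb.symm]
      · simp
    · rw [Prod.snd_add, Prod.snd_sum]
      simp [hframe]
  rw [e]
  exact S.add_mem (S.sum_mem fun i _ => S.smul_mem _ (hmem (IsIteratedBracket.basic i)))
    (hvert _)

end

end Pool.Agent.H521R3.Sard
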