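import Mathlib

/-!
A flat function on the line with infinitely many bumps accumulating at `1`, and its sign changes.
-/

namespace Pool.Agent.H521R3.Sard

open Set MeasureTheory Filter Topology
open scoped ContDiff

noncomputable section

/-- a bump function, equal to `1` near `0` and supported in `[-1/4, 1/4]` -/
def phi : ContDiffBump (0 : ℝ) := ⟨1 / 8, 1 / 4, by norm_num, by norm_num⟩

lemma phi_smooth : ContDiff ℝ ∞ (phi : ℝ → ℝ) := phi.contDiff

lemma phi_zero_of {y : ℝ} (h : 1 / 4 ≤ |y|) : phi y = 0 :=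
  phi.zero_of_le_dist (by rw [Real.dist_eq, sub_zero]; exact h)

lemma phi_zero : phi 0 = 1 := phi.one_of_mem_closedBall (by simp [phi])

lemma phi_nonneg (y : ℝ) : 0 ≤ phi y := phi.nonneg

lemma phi_le_one (y : ℝ) : phi y ≤ 1 := phi.le_one

lemma exists_phi_bound (k : ℕ) : ∃ C, ∀ x, ‖iteratedFDeriv ℝ k phi x‖ ≤ C :=
  (phi.hasCompactSupport.iteratedFDeriv k).exists_bound_of_continuous
    (phi_smooth.continuous_iteratedFDeriv (by exact_mod_cast le_top))

/-- the reciprocal width of the `n`-th bump -/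
def wA (n : ℕ) : ℝ := ((n : ℝ) + 1) ^ 3

/-- the centre of the `n`-th bump -/
def cen (n : ℕ) : ℝ := 1 + 1 / ((n : ℝ) + 1)

/-- the height of the `n`-th bump -/
def hei (n : ℕ) : ℝ := ((n : ℝ) + 1) / 2 ^ (n + 1)

/-- the `n`-th bump -/
def bump (n : ℕ) (s : ℝ) : ℝ := hei n * phi (wA n * (s - cen n))

lemma wA_pos (n : ℕ) : 0 < wA n := by unfold wA; positivity

lemma hei_pos (n : ℕ) : 0 < hei n := by unfold hei; positivity

lemma hei_cube (n : ℕ) : hei n ^ 3 / wA n = ((8:ℝ) ^ (n + 1))⁻¹ := by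
  unfold hei wA
  have h : ((n:ℝ) + 1) ≠ 0 := by positivity
  rw [div_pow, ← pow_mul, mul_comm (n+1) 3, pow_mul]
  norm_num
  field_simp

lemma hei_le (n : ℕ) : hei n ≤ 1 / 2 := by
  unfold hei
  have h : ∀ n : ℕ, (n : ℝ) + 1 ≤ 2 ^ n := by
    intro n
    have := one_add_mul_le_pow (a := (1:ℝ)) (by norm_num) n
    norm_num at this
    linarith
  rw [div_le_iff₀ (by positivity), pow_succ]
  linarith [h n]

lemma bump_nonneg (n : ℕ) (s : ℝ) : 0 ≤ bump n s :=
  mul_nonneg (hei_pos n).le (phi_nonneg _)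

lemma bump_le (n : ℕ) (s : ℝ) : bump n s ≤ 1 / 2 := by
  unfold bump
  calc hei n * phi (wA n * (s - cen n)) ≤ hei n * 1 :=
        mul_le_mul_of_nonneg_left (phi_le_one _) (hei_pos n).le
    _ ≤ 1 / 2 := by rw [mul_one]; exact hei_le n

lemma bump_ne {n : ℕ} {s : ℝ} (h : bump n s ≠ 0) : |wA n * (s - cen n)| < 1 / 4 := by
  by_contra hc
  exact h (by rw [bump, phi_zero_of (not_lt.1 hc), mul_zero])

lemma bump_loc {n : ℕ} {s : ℝ} (h : bump n s ≠ 0) : 1 < s ∧ s < 5 / 2 := by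
  have h1 := abs_lt.1 (bump_ne h)
  unfold wA cen at h1
  set a : ℝ := (n : ℝ) + 1 with ha
  have ha1 : 1 ≤ a := by rw [ha]; linarith [Nat.cast_nonneg (α := ℝ) n]
  have hpos : 0 < a := by linarith
  have e : a ^ 3 * (s - (1 + 1 / a)) = a ^ 3 * (s - 1) - a ^ 2 := by
    field_simp
    ring
  rw [e] at h1
  have h3 : 1 ≤ a ^ 2 := by nlinarith
  have h4 : 0 < a ^ 3 := by positivity
  constructor
  · by_contra hc
    have : a ^ 3 * (s - 1) ≤ 0 := mul_nonpos_of_nonneg_of_nonpos h4.le (by linarith [not_lt.1 hc])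
    linarith [h1.1]
  · by_contra hc
    have h5 : 3 / 2 ≤ s - 1 := by linarith [not_lt.1 hc]
    have h6 : a ^ 3 * (3 / 2) ≤ a ^ 3 * (s - 1) := mul_le_mul_of_nonneg_left h5 h4.le
    have h7 : a ^ 2 ≤ a ^ 3 := by nlinarith
    nlinarith [h1.2]

lemma bump_disj_aux {n m : ℕ} (hnm : n < m) {s : ℝ} (hn : bump n s ≠ 0) : bump m s = 0 := by
  by_contra hm
  have h1 := abs_lt.1 (bump_ne hn)
  have h2 := abs_lt.1 (bump_ne hm)
  unfold wA cen at h1 h2
  set a : ℝ := (n : ℝ) + 1 with ha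
  set b : ℝ := (m : ℝ) + 1 with hb
  have ha1 : 1 ≤ a := by rw [ha]; linarith [Nat.cast_nonneg (α := ℝ) n]
  have hab : a + 1 ≤ b := by
    have : (n : ℝ) + 1 ≤ m := by exact_mod_cast hnm
    rw [ha, hb]; linarith
  have hpa : 0 < a := by linarith
  have hpb : 0 < b := by linarith
  have h3 : 1 / a - 1 / (4 * a ^ 3) < s - 1 := by
    have := h1.1
    have e : a ^ 3 * (s - (1 + 1 / a)) = a ^ 3 * ((s - 1) - 1 / a) := by ring
    rw [e] at this
    have h4 : -(1 / 4) / a ^ 3 < (s - 1) - 1 / a := by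
      rw [div_lt_iff₀ (by positivity)]
      linarith
    have e2 : -(1 / 4) / a ^ 3 = - (1 / (4 * a ^ 3)) := by field_simp
    rw [e2] at h4
    linarith
  have h4 : s - 1 < 1 / b + 1 / (4 * b ^ 3) := by
    have := h2.2
    have e : b ^ 3 * (s - (1 + 1 / b)) = b ^ 3 * ((s - 1) - 1 / b) := by ring
    rw [e] at this
    have h4 : (s - 1) - 1 / b < (1 / 4) / b ^ 3 := by
      rw [lt_div_iff₀ (by positivity)]
      linarith
    have e2 : (1 / 4) / b ^ 3 = 1 / (4 * b ^ 3) := by field_simp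
    rw [e2] at h4
    linarith
  have h5 : 1 / b ≤ 1 / (a + 1) := one_div_le_one_div_of_le (by linarith) hab
  have h6 : 1 / (4 * b ^ 3) ≤ 1 / (4 * a ^ 3) := by
    apply one_div_le_one_div_of_le (by positivity)
    have : a ^ 3 ≤ b ^ 3 := pow_le_pow_left₀ hpa.le (by linarith) 3
    linarith
  have h7 : 1 / a - 1 / (a + 1) < 1 / (2 * a ^ 3) := by
    have e : 1 / (2 * a ^ 3) = 1 / (4 * a ^ 3) + 1 / (4 * a ^ 3) := by field_simp; norm_num
    rw [e]; linarith
  have e : 1 / a - 1 / (a + 1) = 1 / (a * (a + 1)) := by field_simp; ring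
  rw [e] at h7
  have h8 : 2 * a ^ 3 < a * (a + 1) := by
    rwa [one_div_lt_one_div (by positivity) (by positivity)] at h7
  nlinarith [mul_pos hpa hpa]

lemma bump_disj {n m : ℕ} (hnm : n ≠ m) {s : ℝ} (hn : bump n s ≠ 0) : bump m s = 0 := by
  rcases lt_or_gt_of_ne hnm with h | h
  · exact bump_disj_aux h hn
  · by_contra hm
    exact hn (bump_disj_aux h hm)

lemma exists_index (s : ℝ) : ∃ n0, ∀ n, n ≠ n0 → bump n s = 0 := by
  by_cases h : ∃ n0, bump n0 s ≠ 0
  · obtain ⟨n0, h0⟩ := h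
    exact ⟨n0, fun n hn => bump_disj hn.symm h0⟩
  · push Not at h
    exact ⟨0, fun n _ => h n⟩

/-- the sum of the bumps with signs `e` -/
def BB (e : ℕ → ℝ) (s : ℝ) : ℝ := ∑' n, e n * bump n s

lemma BB_eq {s : ℝ} {n0 : ℕ} (h : ∀ n, n ≠ n0 → bump n s = 0) (e : ℕ → ℝ) :
    BB e s = e n0 * bump n0 s :=
  tsum_eq_single n0 fun n hn => by rw [h n hn, mul_zero]

lemma BB_eq_zero {s : ℝ} (h : s ≤ 1 ∨ 5 / 2 ≤ s) (e : ℕ → ℝ) : BB e s = 0 := by
  have : ∀ n, bump n s = 0 := by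
    intro n
    by_contra hn
    have := bump_loc hn
    rcases h with h | h
    · linarith [this.1]
    · linarith [this.2]
  unfold BB
  simp [this]

lemma bump_smooth (n : ℕ) (a : ℝ) : ContDiff ℝ ∞ (fun s => a * bump n s) :=
  contDiff_const.mul (contDiff_const.mul
    (phi_smooth.comp (contDiff_const.mul (contDiff_id.sub contDiff_const))))

lemma bump_bound (k n : ℕ) {a : ℝ} (ha : |a| ≤ 1) {C : ℝ}
    (hC : ∀ x, ‖iteratedFDeriv ℝ k phi x‖ ≤ C) (x : ℝ) :
    ‖iteratedFDeriv ℝ k (fun s => a * bump n s) x‖ ≤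
      C * (((n:ℝ) + 1) ^ (3 * k + 1) / 2 ^ (n + 1)) := by
  have hk : ContDiff ℝ k (phi : ℝ → ℝ) := phi_smooth.of_le (by exact_mod_cast le_top)
  rw [norm_iteratedFDeriv_eq_norm_iteratedDeriv]
  have h0 : (fun s => a * bump n s) =
      fun s => (a * hei n) * ((fun y => phi (wA n * y)) (s - cen n)) := by
    funext s
    simp only [bump]
    ring
  have h1 : iteratedDeriv k (fun s => a * bump n s) x =
      (a * hei n) * (wA n ^ k * iteratedDeriv k phi (wA n * (x - cen n))) := by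
    rw [h0, iteratedDeriv_const_mul_field,
      congrFun (iteratedDeriv_comp_sub_const k (fun y => phi (wA n * y)) (cen n)) x,
      iteratedDeriv_comp_const_mul hk]
  rw [h1, norm_mul, norm_mul, norm_mul]
  have h2 : ‖iteratedDeriv k phi (wA n * (x - cen n))‖ ≤ C := by
    rw [← norm_iteratedFDeriv_eq_norm_iteratedDeriv]
    exact hC _
  have hC0 : 0 ≤ C := (norm_nonneg _).trans (hC 0)
  have h3 : ‖wA n ^ k‖ = ((n:ℝ) + 1) ^ (3 * k) := by
    rw [Real.norm_of_nonneg (by have := wA_pos n; positivity), wA, ← pow_mul]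
  have h4 : ‖hei n‖ = hei n := Real.norm_of_nonneg (hei_pos n).le
  rw [h3, h4, Real.norm_eq_abs]
  calc |a| * hei n * (((n:ℝ) + 1) ^ (3 * k) * ‖iteratedDeriv k phi _‖)
      ≤ 1 * hei n * (((n:ℝ) + 1) ^ (3 * k) * C) := by
        have := (hei_pos n).le
        gcongr
    _ = _ := by unfold hei; ring

lemma summable_aux (k : ℕ) : Summable fun n : ℕ => ((n:ℝ) + 1) ^ k / 2 ^ (n + 1) := by
  have h := summable_pow_mul_geometric_of_norm_lt_one (R := ℝ) k (r := 1 / 2)
    (by rw [Real.norm_of_nonneg (by norm_num)]; norm_num)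
  have h2 := (summable_nat_add_iff 1).2 h
  refine h2.congr fun n => ?_
  push_cast
  rw [one_div, inv_pow, div_eq_mul_inv]

lemma BB_smooth {e : ℕ → ℝ} (he : ∀ n, |e n| ≤ 1) : ContDiff ℝ ∞ (BB e) := by
  choose C hC using exists_phi_bound
  refine contDiff_tsum (v := fun k (n : ℕ) => C k * (((n:ℝ) + 1) ^ (3 * k + 1) / 2 ^ (n + 1)))
    (fun n => bump_smooth n (e n)) (fun k _ => ?_)
    (fun k n x _ => bump_bound k n (he n) (hC k) x)
  exact (summable_aux _).mul_left _

/-- the integral of `φ³` -/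
def II : ℝ := ∫ y, (phi y) ^ 3

lemma II_pos : 0 < II := by
  have hc : Continuous fun y : ℝ => (phi y) ^ 3 := phi_smooth.continuous.pow 3
  have hcs : HasCompactSupport fun y : ℝ => (phi y) ^ 3 := by
    have := phi.hasCompactSupport
    exact this.comp_left (g := fun z : ℝ => z ^ 3) (by norm_num)
  exact hc.integral_pos_of_hasCompactSupport_nonneg_nonzero hcs
    (fun y => pow_nonneg (phi_nonneg y) 3) (x := 0) (by simp [phi_zero])

lemma integral_bump_cube (n : ℕ) : ∫ s in (0:ℝ)..3, bump n s ^ 3 = II * ((8:ℝ) ^ (n + 1))⁻¹ := by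
  have hsupp : Function.support (fun s => bump n s ^ 3) ⊆ Ioc 0 3 := by
    intro s hs
    have h1 : bump n s ≠ 0 := by
      intro h
      exact hs (by simp [h])
    have := bump_loc h1
    exact ⟨by linarith [this.1], by linarith [this.2]⟩
  rw [intervalIntegral.integral_eq_integral_of_support_subset hsupp]
  have h1 : (fun s => bump n s ^ 3) = fun s => hei n ^ 3 * ((fun y => phi (wA n * y) ^ 3)
      (s - cen n)) := by
    funext s
    simp only [bump, mul_pow]
  rw [h1, integral_const_mul, integral_sub_right_eq_self (fun y => phi (wA n * y) ^ 3),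
    Measure.integral_comp_mul_left (fun y => phi y ^ 3) (wA n)]
  rw [← hei_cube n, abs_of_pos (inv_pos.2 (wA_pos n)), smul_eq_mul]
  unfold II
  ring

lemma BB_cube (e : ℕ → ℝ) (s : ℝ) : BB e s ^ 3 = ∑' n, e n ^ 3 * bump n s ^ 3 := by
  obtain ⟨n0, h0⟩ := exists_index s
  rw [BB_eq h0, tsum_eq_single n0 fun n hn => by rw [h0 n hn]; ring, mul_pow]

lemma summable_eight : Summable fun n : ℕ => ((8:ℝ) ^ (n + 1))⁻¹ := by
  have h : Summable fun n : ℕ => ((1:ℝ) / 8) ^ n :=
    summable_geometric_of_lt_one (by norm_num) (by norm_num)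
  have h2 := (summable_nat_add_iff 1).2 h
  refine h2.congr fun n => ?_
  rw [one_div, inv_pow]

lemma integral_BB_cube {e : ℕ → ℝ} (he : ∀ n, |e n| ≤ 1) :
    ∫ s in (0:ℝ)..3, BB e s ^ 3 = II * ∑' n, e n ^ 3 * ((8:ℝ) ^ (n + 1))⁻¹ := by
  have hb : ∀ n, Continuous (bump n) := fun n => by
    have := (bump_smooth n 1).continuous
    simpa using this
  let f : ℕ → C(ℝ, ℝ) := fun n => ⟨fun s => e n ^ 3 * bump n s ^ 3,
    continuous_const.mul ((hb n).pow 3)⟩
  have hnorm : ∀ n, ‖(f n).restrict (⟨uIcc (0:ℝ) 3, isCompact_uIcc⟩ :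
      TopologicalSpace.Compacts ℝ)‖ ≤ ((n:ℝ) + 1) ^ 1 / 2 ^ (n + 1) := by
    intro n
    rw [ContinuousMap.norm_le _ (by positivity)]
    intro x
    show ‖e n ^ 3 * bump n x ^ 3‖ ≤ _
    rw [norm_mul, norm_pow, norm_pow, Real.norm_eq_abs,
      Real.norm_of_nonneg (bump_nonneg n x)]
    have h1 : |e n| ^ 3 ≤ 1 := pow_le_one₀ (abs_nonneg _) (he n)
    have h2 : bump n x ≤ hei n := by
      unfold bump
      calc hei n * phi (wA n * (x - cen n)) ≤ hei n * 1 :=
            mul_le_mul_of_nonneg_left (phi_le_one _) (hei_pos n).le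
        _ = hei n := mul_one _
    have h3 : bump n x ^ 3 ≤ hei n := by
      have h4 := bump_nonneg n x
      have h5 := bump_le n x
      calc bump n x ^ 3 = bump n x ^ 2 * bump n x := by ring
        _ ≤ 1 * bump n x := by
            apply mul_le_mul_of_nonneg_right _ h4
            nlinarith
        _ ≤ hei n := by rw [one_mul]; exact h2
    calc |e n| ^ 3 * bump n x ^ 3 ≤ 1 * hei n := by
          apply mul_le_mul h1 h3 (by have := bump_nonneg n x; positivity) (by norm_num)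
      _ = _ := by unfold hei; rw [pow_one, one_mul]
  have hsum : Summable fun n => ‖(f n).restrict (⟨uIcc (0:ℝ) 3, isCompact_uIcc⟩ :
      TopologicalSpace.Compacts ℝ)‖ :=
    Summable.of_nonneg_of_le (fun _ => norm_nonneg _) hnorm (summable_aux 1)
  have h := intervalIntegral.hasSum_intervalIntegral_of_summable_norm hsum
  have h1 : ∀ n, ∫ s in (0:ℝ)..3, f n s = e n ^ 3 * (II * ((8:ℝ) ^ (n + 1))⁻¹) := by
    intro n
    show ∫ s in (0:ℝ)..3, e n ^ 3 * bump n s ^ 3 = _
    rw [intervalIntegral.integral_const_mul, integral_bump_cube]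
  simp only [h1] at h
  have h2 : ∫ s in (0:ℝ)..3, ∑' n, f n s = ∫ s in (0:ℝ)..3, BB e s ^ 3 := by
    congr 1
    funext s
    rw [BB_cube]
    rfl
  rw [← h2, ← h.tsum_eq, ← tsum_mul_left]
  congr 1
  funext n
  ring

end

end Pool.Agent.H521R3.Sard
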