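import Pool.Agent.H521R3.SardBumps
import Pool.Agent.Results.MP_77ffad_gt.NoRegularValue

/-!
The rank two distribution on `ℝ² × ℝ²` and its Lie brackets.
-/

namespace Pool.Agent.H521R3.Sard

open Set MeasureTheory Filter Topology
open scoped ContDiff
open Pool.Agent.Results.MP_77ffad_gt.NoRegularValue (hframe IsIteratedBracket BracketGenerating)

noncomputable section

lemma quot_smooth {e : ℕ → ℝ} (he : ∀ n, |e n| ≤ 1) : ContDiff ℝ ∞ (fun s => BB e s / s) := by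
  rw [contDiff_iff_contDiffAt]
  intro x
  by_cases hx : x = 0
  · subst hx
    have h : (fun s => BB e s / s) =ᶠ[𝓝 0] fun _ => (0:ℝ) := by
      filter_upwards [gt_mem_nhds (show (0:ℝ) < 1 by norm_num)] with s hs
      rw [BB_eq_zero (Or.inl (le_of_lt hs)), zero_div]
    exact contDiffAt_const.congr_of_eventuallyEq h
  · exact (BB_smooth he).contDiffAt.div contDiffAt_id hx

lemma abs_one_le : ∀ n : ℕ, |(fun _ : ℕ => (1:ℝ)) n| ≤ 1 := fun _ => by simp

/-- the square of the flat function -/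
def G (x : ℝ) : ℝ := (BB (fun _ => 1) x / x) ^ 2

lemma G_smooth : ContDiff ℝ ∞ G := (quot_smooth abs_one_le).pow 2

lemma G_zero {x : ℝ} (h : x ≤ 1) : G x = 0 := by
  unfold G
  rw [BB_eq_zero (Or.inl h)]
  simp

lemma G_nonneg (x : ℝ) : 0 ≤ G x := by unfold G; positivity

lemma abs_BB_le {e : ℕ → ℝ} (he : ∀ n, |e n| ≤ 1) (s : ℝ) : |BB e s| ≤ 1 / 2 := by
  obtain ⟨n0, h0⟩ := exists_index s
  rw [BB_eq h0, abs_mul, abs_of_nonneg (bump_nonneg n0 s)]
  calc |e n0| * bump n0 s ≤ 1 * (1 / 2) :=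
        mul_le_mul (he n0) (bump_le n0 s) (bump_nonneg n0 s) (by norm_num)
    _ = 1 / 2 := one_mul _

lemma abs_quot_le {e : ℕ → ℝ} (he : ∀ n, |e n| ≤ 1) (s : ℝ) : |BB e s / s| ≤ 1 / 2 := by
  rcases le_or_gt s 1 with h | h
  · rw [BB_eq_zero (Or.inl h)]; norm_num
  · rw [abs_div, abs_of_pos (by linarith : (0:ℝ) < s), div_le_iff₀ (by linarith)]
    have := abs_BB_le he s
    linarith

lemma G_le (x : ℝ) : G x ≤ 1 / 4 := by
  have h := abs_le.1 (abs_quot_le abs_one_le x)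
  unfold G
  nlinarith [h.1, h.2]

lemma quot_sq {e : ℕ → ℝ} (he : ∀ n, e n ^ 2 = 1) (s : ℝ) : (BB e s / s) ^ 2 = G s := by
  obtain ⟨n0, h0⟩ := exists_index s
  unfold G
  rw [BB_eq h0, BB_eq h0, div_pow, div_pow, mul_pow, mul_pow, he]
  norm_num

/-- primitives of `t^j G(t)` -/
def prim (j : ℕ) (x : ℝ) : ℝ := ∫ t in (0:ℝ)..x, t ^ j * G t

lemma continuous_prim_integrand (j : ℕ) : Continuous fun t : ℝ => t ^ j * G t :=
  (continuous_id.pow j).mul G_smooth.continuous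

lemma hasDerivAt_prim (j : ℕ) (x : ℝ) : HasDerivAt (prim j) (x ^ j * G x) x :=
  intervalIntegral.integral_hasDerivAt_right
    ((continuous_prim_integrand j).intervalIntegrable _ _)
    (continuous_prim_integrand j).aestronglyMeasurable.stronglyMeasurableAtFilter
    (continuous_prim_integrand j).continuousAt

lemma prim_smooth (j : ℕ) : ContDiff ℝ ∞ (prim j) := by
  rw [contDiff_infty_iff_deriv]
  refine ⟨fun x => (hasDerivAt_prim j x).differentiableAt, ?_⟩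
  have h : deriv (prim j) = fun x => x ^ j * G x := funext fun x => (hasDerivAt_prim j x).deriv
  rw [h]
  exact (contDiff_id.pow j).mul G_smooth

lemma prim_zero (j : ℕ) {x : ℝ} (h : x ≤ 1) : prim j x = 0 := by
  unfold prim
  have : ∫ t in (0:ℝ)..x, t ^ j * G t = ∫ t in (0:ℝ)..x, 0 := by
    apply intervalIntegral.integral_congr
    intro t ht
    have h1 : t ≤ 1 := by
      rcases le_total 0 x with hx | hx
      · rw [uIcc_of_le hx] at ht; exact ht.2.trans h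
      · rw [uIcc_of_ge hx] at ht; exact ht.2.trans (by norm_num)
    show t ^ j * G t = 0
    rw [G_zero h1, mul_zero]
  rw [this, intervalIntegral.integral_zero]

/-- the potential `Ξ₀` -/
def Xi (x y : ℝ) : ℝ :=
  x ^ 4 * y ^ 3 / 12 - y * prim 3 x - x ^ 2 / 2 * prim 2 y + prim 1 x * prim 0 y

/-- `∂₁ Ξ₀` -/
def Xi1 (x y : ℝ) : ℝ :=
  x ^ 3 * y ^ 3 / 3 - y * (x ^ 3 * G x) - x * prim 2 y + x * G x * prim 0 y

/-- `∂₂ Ξ₀` -/
def Xi2 (x y : ℝ) : ℝ :=
  x ^ 4 * y ^ 2 / 4 - prim 3 x - x ^ 2 / 2 * (y ^ 2 * G y) + prim 1 x * G y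

/-- `∂₂ ∂₁ Ξ₀ = ∂₁ ∂₂ Ξ₀` -/
def Hh (x y : ℝ) : ℝ := x * ((y ^ 2 - G x) * (x ^ 2 - G y))

lemma hasDerivAt_Xi {x y : ℝ → ℝ} {x' y' t : ℝ} (hx : HasDerivAt x x' t)
    (hy : HasDerivAt y y' t) :
    HasDerivAt (fun t => Xi (x t) (y t)) (Xi1 (x t) (y t) * x' + Xi2 (x t) (y t) * y') t := by
  have h1 := (hasDerivAt_prim 3 (x t)).comp t hx
  have h2 := (hasDerivAt_prim 2 (y t)).comp t hy
  have h3 := (hasDerivAt_prim 1 (x t)).comp t hx
  have h4 := (hasDerivAt_prim 0 (y t)).comp t hy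
  have h := (((((hx.pow 4).mul (hy.pow 3)).div_const 12).sub (hy.mul h1)).sub
    (((hx.pow 2).div_const 2).mul h2)).add (h3.mul h4)
  refine h.congr_deriv ?_
  simp only [Xi1, Xi2, Function.comp_apply, Pi.pow_apply]
  push_cast
  ring

lemma hasDerivAt_Xi1_snd (x y : ℝ) : HasDerivAt (fun s => Xi1 x s) (Hh x y) y := by
  have h2 := hasDerivAt_prim 2 y
  have h4 := hasDerivAt_prim 0 y
  have hy := hasDerivAt_id y
  have h := ((((hasDerivAt_const y (x ^ 3)).mul (hy.pow 3)).div_const 3).sub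
    (hy.mul (hasDerivAt_const y (x ^ 3 * G x)))).sub
    ((hasDerivAt_const y x).mul h2) |>.add ((hasDerivAt_const y (x * G x)).mul h4)
  refine (h.congr_deriv ?_)
  simp only [Hh, id, Pi.pow_apply]
  push_cast
  ring

lemma hasDerivAt_Xi2_fst (x y : ℝ) : HasDerivAt (fun s => Xi2 s y) (Hh x y) x := by
  have h1 := hasDerivAt_prim 3 x
  have h3 := hasDerivAt_prim 1 x
  have hx := hasDerivAt_id x
  have h := ((((hx.pow 4).mul (hasDerivAt_const x (y ^ 2))).div_const 4).sub h1).sub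
    (((hx.pow 2).div_const 2).mul (hasDerivAt_const x (y ^ 2 * G y))) |>.add
    (h3.mul (hasDerivAt_const x (G y)))
  refine (h.congr_deriv ?_)
  simp only [Hh, id, Pi.pow_apply]
  push_cast
  ring

/-- the frame coefficients: `A 0 = -(∂₁ Ξ₀(x,y), ∂₁ Ξ₁(x,y))`, where `Ξ₁(x,y) = Ξ₀(y,x)`, and
`A 1 = 0` -/
def A (i : Fin 2) (x : Fin 2 → ℝ) : Fin 2 → ℝ :=
  if i = 0 then ![-Xi1 (x 0) (x 1), -Xi2 (x 1) (x 0)] else 0

lemma A0 (x : Fin 2 → ℝ) : A 0 x = ![-Xi1 (x 0) (x 1), -Xi2 (x 1) (x 0)] := by simp [A]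

lemma A1 (x : Fin 2 → ℝ) : A 1 x = 0 := by simp [A]

/-- the curvature -/
def hh (x : Fin 2 → ℝ) : Fin 2 → ℝ := ![Hh (x 0) (x 1), Hh (x 1) (x 0)]

lemma proj_smooth (i : Fin 2) : ContDiff ℝ ∞ (fun x : Fin 2 → ℝ => x i) := contDiff_apply ℝ ℝ i

lemma Xi1_smooth : ContDiff ℝ ∞ (fun p : ℝ × ℝ => Xi1 p.1 p.2) := by
  unfold Xi1
  have hG : ContDiff ℝ ∞ (fun p : ℝ × ℝ => G p.1) := G_smooth.comp contDiff_fst
  have h2 : ContDiff ℝ ∞ (fun p : ℝ × ℝ => prim 2 p.2) := (prim_smooth 2).comp contDiff_snd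
  have h0 : ContDiff ℝ ∞ (fun p : ℝ × ℝ => prim 0 p.2) := (prim_smooth 0).comp contDiff_snd
  have hx : ContDiff ℝ ∞ (fun p : ℝ × ℝ => p.1) := contDiff_fst
  have hy : ContDiff ℝ ∞ (fun p : ℝ × ℝ => p.2) := contDiff_snd
  exact (((((hx.pow 3).mul (hy.pow 3)).div_const 3).sub (hy.mul ((hx.pow 3).mul hG))).sub
    (hx.mul h2)).add ((hx.mul hG).mul h0)

lemma Xi2_smooth : ContDiff ℝ ∞ (fun p : ℝ × ℝ => Xi2 p.1 p.2) := by
  unfold Xi2
  have hG : ContDiff ℝ ∞ (fun p : ℝ × ℝ => G p.2) := G_smooth.comp contDiff_snd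
  have h3 : ContDiff ℝ ∞ (fun p : ℝ × ℝ => prim 3 p.1) := (prim_smooth 3).comp contDiff_fst
  have h1 : ContDiff ℝ ∞ (fun p : ℝ × ℝ => prim 1 p.1) := (prim_smooth 1).comp contDiff_fst
  have hx : ContDiff ℝ ∞ (fun p : ℝ × ℝ => p.1) := contDiff_fst
  have hy : ContDiff ℝ ∞ (fun p : ℝ × ℝ => p.2) := contDiff_snd
  exact (((((hx.pow 4).mul (hy.pow 2)).div_const 4).sub h3).sub
    (((hx.pow 2).div_const 2).mul ((hy.pow 2).mul hG))).add (h1.mul hG)

lemma Hh_smooth : ContDiff ℝ ∞ (fun p : ℝ × ℝ => Hh p.1 p.2) := by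
  unfold Hh
  have hG1 : ContDiff ℝ ∞ (fun p : ℝ × ℝ => G p.1) := G_smooth.comp contDiff_fst
  have hG2 : ContDiff ℝ ∞ (fun p : ℝ × ℝ => G p.2) := G_smooth.comp contDiff_snd
  have hx : ContDiff ℝ ∞ (fun p : ℝ × ℝ => p.1) := contDiff_fst
  have hy : ContDiff ℝ ∞ (fun p : ℝ × ℝ => p.2) := contDiff_snd
  exact hx.mul (((hy.pow 2).sub hG1).mul ((hx.pow 2).sub hG2))

lemma contDiff_A (i : Fin 2) : ContDiff ℝ ∞ (A i) := by
  rw [contDiff_pi]
  intro l
  fin_cases i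
  · simp only [Fin.zero_eta, A0]
    fin_cases l
    · exact (Xi1_smooth.comp ((proj_smooth 0).prodMk (proj_smooth 1))).neg
    · exact (Xi2_smooth.comp ((proj_smooth 1).prodMk (proj_smooth 0))).neg
  · simp only [Fin.mk_one, A1]
    exact contDiff_const

lemma contDiff_hh : ContDiff ℝ ∞ hh := by
  rw [contDiff_pi]
  intro l
  unfold hh
  fin_cases l
  · exact Hh_smooth.comp ((proj_smooth 0).prodMk (proj_smooth 1))
  · exact Hh_smooth.comp ((proj_smooth 1).prodMk (proj_smooth 0))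

lemma linearIndependent_hframe (q : (Fin 2 → ℝ) × (Fin 2 → ℝ)) :
    LinearIndependent ℝ (fun i => hframe A i q) := by
  rw [Fintype.linearIndependent_iff]
  intro g hg i
  have := congrFun (congrArg Prod.fst hg) i
  rw [Prod.fst_sum, Finset.sum_apply, Finset.sum_eq_single i] at this
  · simpa [hframe] using this
  · intro b _ hb
    simp [hframe, hb.symm]
  · simp

/-! ### Lie brackets -/

/-- vertical vector fields -/
def vert (c : (Fin 2 → ℝ) → (Fin 2 → ℝ)) (q : (Fin 2 → ℝ) × (Fin 2 → ℝ)) :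
    (Fin 2 → ℝ) × (Fin 2 → ℝ) := (0, c q.1)

lemma fderiv_vert {c : (Fin 2 → ℝ) → (Fin 2 → ℝ)} (hc : ContDiff ℝ ∞ c)
    (q v : (Fin 2 → ℝ) × (Fin 2 → ℝ)) :
    fderiv ℝ (vert c) q v = (0, fderiv ℝ c q.1 v.1) := by
  have h1 : HasFDerivAt c (fderiv ℝ c q.1) q.1 := (hc.differentiable (by simp) _).hasFDerivAt
  have h2 := (hasFDerivAt_const (0 : Fin 2 → ℝ) q).prodMk (h1.comp q hasFDerivAt_fst)
  have h3 : HasFDerivAt (vert c) _ q := h2
  rw [h3.fderiv]
  rfl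

lemma fderiv_hframe (i : Fin 2) (q v : (Fin 2 → ℝ) × (Fin 2 → ℝ)) :
    fderiv ℝ (hframe A i) q v = (0, fderiv ℝ (A i) q.1 v.1) := by
  have h1 : HasFDerivAt (A i) (fderiv ℝ (A i) q.1) q.1 :=
    ((contDiff_A i).differentiable (by simp) _).hasFDerivAt
  have h2 := (hasFDerivAt_const (Pi.single i 1 : Fin 2 → ℝ) q).prodMk
    (h1.comp q hasFDerivAt_fst)
  have h3 : HasFDerivAt (hframe A i) _ q := h2
  rw [h3.fderiv]
  rfl

lemma bracket_vert (i : Fin 2) {c : (Fin 2 → ℝ) → (Fin 2 → ℝ)} (hc : ContDiff ℝ ∞ c) :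
    VectorField.lieBracket ℝ (hframe A i) (vert c) =
      vert (fun x => fderiv ℝ c x (Pi.single i 1)) := by
  funext q
  rw [VectorField.lieBracket, fderiv_vert hc, fderiv_hframe]
  simp [vert, hframe]

lemma bracket_hframe (i j : Fin 2) :
    VectorField.lieBracket ℝ (hframe A i) (hframe A j) =
      vert (fun x => fderiv ℝ (A j) x (Pi.single i 1) - fderiv ℝ (A i) x (Pi.single j 1)) := by
  funext q
  rw [VectorField.lieBracket, fderiv_hframe, fderiv_hframe]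
  simp [vert, hframe]

/-- directional derivative along the `i`-th coordinate -/
def dd (i : Fin 2) (c : (Fin 2 → ℝ) → (Fin 2 → ℝ)) (x : Fin 2 → ℝ) : Fin 2 → ℝ :=
  fderiv ℝ c x (Pi.single i 1)

lemma dd_smooth (i : Fin 2) {c : (Fin 2 → ℝ) → (Fin 2 → ℝ)} (hc : ContDiff ℝ ∞ c) :
    ContDiff ℝ ∞ (dd i c) :=
  (hc.fderiv_right (m := ∞) (by simp)).clm_apply contDiff_const

lemma dd_congr (i : Fin 2) {c d : (Fin 2 → ℝ) → (Fin 2 → ℝ)} {U : Set (Fin 2 → ℝ)}
    (hU : IsOpen U) (h : EqOn c d U) : EqOn (dd i c) (dd i d) U := by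
  intro x hx
  have h1 : c =ᶠ[𝓝 x] d := h.eventuallyEq_of_mem (hU.mem_nhds hx)
  unfold dd
  rw [h1.fderiv_eq]

lemma dd_eq (i : Fin 2) {c : (Fin 2 → ℝ) → (Fin 2 → ℝ)} (hc : ContDiff ℝ ∞ c) (x : Fin 2 → ℝ)
    (d : Fin 2 → ℝ) (h : ∀ l, HasDerivAt (fun s : ℝ => c (x + s • Pi.single i 1) l) (d l) 0) :
    dd i c x = d := by
  have h1 : HasDerivAt (fun s : ℝ => c (x + s • Pi.single i 1)) (dd i c x) 0 := by
    have hl : HasDerivAt (fun s : ℝ => x + s • (Pi.single i 1 : Fin 2 → ℝ))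
        (Pi.single i 1) 0 := by
      simpa using ((hasDerivAt_id (0:ℝ)).smul_const (Pi.single i 1 : Fin 2 → ℝ)).const_add x
    have hd : HasFDerivAt c (fderiv ℝ c x) (x + (0:ℝ) • (Pi.single i 1 : Fin 2 → ℝ)) := by
      simpa using (hc.differentiable (by simp) x).hasFDerivAt
    exact hd.comp_hasDerivAt 0 hl
  exact h1.unique (hasDerivAt_pi.2 h)

lemma dd_A0 : dd 1 (A 0) = fun x => -hh x := by
  funext x
  apply dd_eq 1 (contDiff_A 0)
  intro l
  have hl : HasDerivAt (fun s : ℝ => x 1 + s) 1 0 := by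
    simpa using (hasDerivAt_id (0:ℝ)).const_add (x 1)
  fin_cases l
  · have h := hasDerivAt_Xi1_snd (x 0) (x 1 + 0)
    have h2 := (h.comp (0:ℝ) hl).neg
    simp only [A0]
    convert! h2 using 1
    · funext s
      simp
    · simp [hh]
  · have h := hasDerivAt_Xi2_fst (x 1 + 0) (x 0)
    have h2 := (h.comp (0:ℝ) hl).neg
    simp only [A0]
    convert! h2 using 1
    · funext s
      simp
    · simp [hh]

lemma brk_hh : IsIteratedBracket (hframe A) (vert hh) := by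
  have h := IsIteratedBracket.bracket (IsIteratedBracket.basic (X := hframe A) 0)
    (IsIteratedBracket.basic (X := hframe A) 1)
  rw [bracket_hframe] at h
  have e : (fun x => fderiv ℝ (A 1) x (Pi.single 0 1) - fderiv ℝ (A 0) x (Pi.single 1 1)) = hh := by
    funext x
    have h1 : fderiv ℝ (A 0) x (Pi.single 1 1) = -hh x := congrFun dd_A0 x
    have h2 : A 1 = fun _ => 0 := funext A1
    rw [h1, h2]
    simp
  rw [e] at h
  exact h

lemma brk_dd (i : Fin 2) {c : (Fin 2 → ℝ) → (Fin 2 → ℝ)} (hc : ContDiff ℝ ∞ c)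
    (h : IsIteratedBracket (hframe A) (vert c)) :
    IsIteratedBracket (hframe A) (vert (dd i c)) := by
  have h2 := IsIteratedBracket.bracket (IsIteratedBracket.basic (X := hframe A) i) h
  rwa [bracket_vert i hc] at h2

end

end Pool.Agent.H521R3.Sard
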