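import Pool.Agent.H521R3.SardForms

/-!
Closed paths of the plane inside the zero set of the curvature, and their holonomy.
-/

namespace Pool.Agent.H521R3.Sard

open Set MeasureTheory Filter Topology
open scoped ContDiff
open Pool.Agent.Results.MP_77ffad_gt.NoRegularValue (T T_smooth T_zero T_one hasDerivAt_T
  continuous_deriv_T deriv_T_of_nonpos deriv_T_of_one_le)

noncomputable section

/-- `w` is the holonomy of a closed `C¹` path at the origin inside the zero set of the
curvature. -/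
def IsLoop (w : Fin 2 → ℝ) : Prop :=
  ∃ x x' : ℝ → Fin 2 → ℝ, (∀ t, HasDerivAt x (x' t) t) ∧ Continuous x' ∧
    (∀ t, t ≤ 0 → x t = 0) ∧ (∀ t, 1 ≤ t → x t = 0) ∧ (∀ t, hh (x t) = 0) ∧
    ∀ l, ∫ t in (0:ℝ)..1, x' t 0 * A 0 (x t) l = w l

lemma deriv_zero_left {x x' : ℝ → Fin 2 → ℝ} (hx : ∀ t, HasDerivAt x (x' t) t)
    (hx' : Continuous x') (h0 : ∀ t, t ≤ 0 → x t = 0) {t : ℝ} (ht : t ≤ 0) : x' t = 0 := by
  have h1 : ∀ s < 0, x' s = 0 := by
    intro s hs
    have h2 : x =ᶠ[𝓝 s] fun _ => (0 : Fin 2 → ℝ) := by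
      filter_upwards [gt_mem_nhds hs] with r hr
      exact h0 r (le_of_lt hr)
    exact (hx s).unique ((hasDerivAt_const s _).congr_of_eventuallyEq h2)
  rcases ht.lt_or_eq with ht | ht
  · exact h1 t ht
  · subst ht
    have hcl : IsClosed {s | x' s = 0} := isClosed_eq hx' continuous_const
    have hsub : Iio (0:ℝ) ⊆ {s | x' s = 0} := fun s hs => h1 s hs
    have h3 := closure_minimal hsub hcl
    rw [closure_Iio] at h3
    exact h3 (by simp)

lemma deriv_zero_right {x x' : ℝ → Fin 2 → ℝ} (hx : ∀ t, HasDerivAt x (x' t) t)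
    (hx' : Continuous x') (h0 : ∀ t, 1 ≤ t → x t = 0) {t : ℝ} (ht : 1 ≤ t) : x' t = 0 := by
  have h1 : ∀ s, 1 < s → x' s = 0 := by
    intro s hs
    have h2 : x =ᶠ[𝓝 s] fun _ => (0 : Fin 2 → ℝ) := by
      filter_upwards [lt_mem_nhds hs] with r hr
      exact h0 r (le_of_lt hr)
    exact (hx s).unique ((hasDerivAt_const s _).congr_of_eventuallyEq h2)
  rcases ht.lt_or_eq with ht | ht
  · exact h1 t ht
  · subst ht
    have hcl : IsClosed {s | x' s = 0} := isClosed_eq hx' continuous_const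
    have hsub : Ioi (1:ℝ) ⊆ {s | x' s = 0} := fun s hs => h1 s hs
    have h3 := closure_minimal hsub hcl
    rw [closure_Ioi] at h3
    exact h3 (by simp)

lemma continuous_A0 (l : Fin 2) : Continuous fun x => A 0 x l :=
  (continuous_apply l).comp (contDiff_A 0).continuous

lemma hh_zero : hh 0 = 0 := by
  ext l
  fin_cases l <;> simp [hh, Hh]

lemma isLoop_zero : IsLoop 0 :=
  ⟨fun _ => 0, fun _ => 0, fun t => hasDerivAt_const t _, continuous_const, fun _ _ => rfl,
    fun _ _ => rfl, fun _ => hh_zero, fun l => by simp⟩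

lemma IsLoop.add {w v : Fin 2 → ℝ} (hw : IsLoop w) (hv : IsLoop v) : IsLoop (w + v) := by
  obtain ⟨x, x', hx, hx', hx0, hx1, hxh, hxw⟩ := hw
  obtain ⟨y, y', hy, hy', hy0, hy1, hyh, hyv⟩ := hv
  have dx : ∀ t : ℝ, HasDerivAt (fun t => x (2 * t)) ((2:ℝ) • x' (2 * t)) t := by
    intro t
    have h1 : HasDerivAt (fun t : ℝ => 2 * t) 2 t := by
      simpa using (hasDerivAt_id t).const_mul (2:ℝ)
    exact (hx (2 * t)).scomp t h1
  have dy : ∀ t : ℝ, HasDerivAt (fun t => y (2 * t - 1)) ((2:ℝ) • y' (2 * t - 1)) t := by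
    intro t
    have h1 : HasDerivAt (fun t : ℝ => 2 * t - 1) 2 t := by
      simpa using ((hasDerivAt_id t).const_mul (2:ℝ)).sub_const 1
    exact (hy (2 * t - 1)).scomp t h1
  have xc : Continuous x := continuous_iff_continuousAt.2 fun t => (hx t).continuousAt
  have yc : Continuous y := continuous_iff_continuousAt.2 fun t => (hy t).continuousAt
  have c1 : Continuous fun t : ℝ => 2 * t := by fun_prop
  have c2 : Continuous fun t : ℝ => 2 * t - 1 := by fun_prop
  refine ⟨fun t => x (2 * t) + y (2 * t - 1),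
    fun t => (2:ℝ) • x' (2 * t) + (2:ℝ) • y' (2 * t - 1), fun t => (dx t).add (dy t), ?_, ?_, ?_,
    ?_, ?_⟩
  · exact ((hx'.comp c1).const_smul (2:ℝ)).add ((hy'.comp c2).const_smul (2:ℝ))
  · intro t ht
    simp only
    rw [hx0 _ (by linarith), hy0 _ (by linarith), add_zero]
  · intro t ht
    simp only
    rw [hx1 _ (by linarith), hy1 _ (by linarith), add_zero]
  · intro t
    simp only
    rcases le_total t (1 / 2) with ht | ht
    · rw [hy0 _ (by linarith), add_zero]; exact hxh _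
    · rw [hx1 _ (by linarith), zero_add]; exact hyh _
  · intro l
    have hcont : Continuous fun t : ℝ => ((2:ℝ) • x' (2 * t) + (2:ℝ) • y' (2 * t - 1)) 0 *
        A 0 (x (2 * t) + y (2 * t - 1)) l :=
      ((continuous_apply 0).comp
        (((hx'.comp c1).const_smul (2:ℝ)).add ((hy'.comp c2).const_smul (2:ℝ)))).mul
        ((continuous_A0 l).comp ((xc.comp c1).add (yc.comp c2)))
    have h1 : ∫ t in (0:ℝ)..(1/2), ((2:ℝ) • x' (2 * t) + (2:ℝ) • y' (2 * t - 1)) 0 *
        A 0 (x (2 * t) + y (2 * t - 1)) l = w l := by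
      have e : ∫ t in (0:ℝ)..(1/2), ((2:ℝ) • x' (2 * t) + (2:ℝ) • y' (2 * t - 1)) 0 *
        A 0 (x (2 * t) + y (2 * t - 1)) l =
          ∫ t in (0:ℝ)..(1/2), 2 * ((fun s => x' s 0 * A 0 (x s) l) (2 * t)) := by
        apply intervalIntegral.integral_congr
        intro t ht
        rw [uIcc_of_le (by norm_num)] at ht
        simp only
        rw [hy0 _ (by linarith [ht.2]), deriv_zero_left hy hy' hy0 (by linarith [ht.2])]
        simp
        ring
      rw [e, intervalIntegral.integral_const_mul, intervalIntegral.integral_comp_mul_left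
        (fun s => x' s 0 * A 0 (x s) l) (by norm_num : (2:ℝ) ≠ 0)]
      norm_num
      have := hxw l
      linarith
    have h2 : ∫ t in (1/2:ℝ)..1, ((2:ℝ) • x' (2 * t) + (2:ℝ) • y' (2 * t - 1)) 0 *
        A 0 (x (2 * t) + y (2 * t - 1)) l = v l := by
      have e : ∫ t in (1/2:ℝ)..1, ((2:ℝ) • x' (2 * t) + (2:ℝ) • y' (2 * t - 1)) 0 *
        A 0 (x (2 * t) + y (2 * t - 1)) l =
          ∫ t in (1/2:ℝ)..1, 2 * ((fun s => y' s 0 * A 0 (y s) l) (2 * t - 1)) := by
        apply intervalIntegral.integral_congr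
        intro t ht
        rw [uIcc_of_le (by norm_num)] at ht
        simp only
        rw [hx1 _ (by linarith [ht.1]), deriv_zero_right hx hx' hx1 (by linarith [ht.1])]
        simp
        ring
      rw [e, intervalIntegral.integral_const_mul, intervalIntegral.integral_comp_mul_sub
        (fun s => y' s 0 * A 0 (y s) l) (by norm_num : (2:ℝ) ≠ 0)]
      norm_num
      have := hyv l
      linarith
    rw [← intervalIntegral.integral_add_adjacent_intervals (hcont.intervalIntegrable _ _)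
      (hcont.intervalIntegrable _ _) (b := 1 / 2), h1, h2]
    rfl

lemma IsLoop.neg {w : Fin 2 → ℝ} (hw : IsLoop w) : IsLoop (-w) := by
  obtain ⟨x, x', hx, hx', hx0, hx1, hxh, hxw⟩ := hw
  have c1 : Continuous fun t : ℝ => 1 - t := by fun_prop
  refine ⟨fun t => x (1 - t), fun t => -x' (1 - t), fun t => ?_, (hx'.comp c1).neg, ?_, ?_,
    fun t => hxh _, ?_⟩
  · have h1 : HasDerivAt (fun t : ℝ => 1 - t) (-1) t := by
      simpa using (hasDerivAt_id t).const_sub 1
    have h2 := (hx (1 - t)).scomp t h1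
    rw [neg_one_smul] at h2
    exact h2
  · intro t ht; exact hx1 _ (by linarith)
  · intro t ht; exact hx0 _ (by linarith)
  · intro l
    have e : ∫ t in (0:ℝ)..1, (-x' (1 - t)) 0 * A 0 (x (1 - t)) l =
        ∫ t in (0:ℝ)..1, -((fun s => x' s 0 * A 0 (x s) l) (1 - t)) := by
      apply intervalIntegral.integral_congr
      intro t _
      simp
    show ∫ t in (0:ℝ)..1, (-x' (1 - t)) 0 * A 0 (x (1 - t)) l = (-w) l
    rw [e, intervalIntegral.integral_neg, intervalIntegral.integral_comp_sub_left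
      (fun s => x' s 0 * A 0 (x s) l) 1]
    norm_num
    exact hxw l

lemma IsLoop.nsmul {w : Fin 2 → ℝ} (hw : IsLoop w) (n : ℕ) : IsLoop (n • w) := by
  induction n with
  | zero => rw [zero_smul]; exact isLoop_zero
  | succ n ih => rw [succ_nsmul]; exact ih.add hw

lemma IsLoop.sum {ι : Type} (s : Finset ι) {w : ι → Fin 2 → ℝ} (hw : ∀ i ∈ s, IsLoop (w i)) :
    IsLoop (∑ i ∈ s, w i) := by
  classical
  induction s using Finset.induction_on with
  | empty => rw [Finset.sum_empty]; exact isLoop_zero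
  | insert a s ha ih =>
    rw [Finset.sum_insert ha]
    exact (hw a (Finset.mem_insert_self a s)).add
      (ih fun i hi => hw i (Finset.mem_insert_of_mem hi))

lemma hasDerivAt_vec {f g : ℝ → ℝ} {f' g' : ℝ} {t : ℝ} (hf : HasDerivAt f f' t)
    (hg : HasDerivAt g g' t) :
    HasDerivAt (fun t => (![f t, g t] : Fin 2 → ℝ)) ![f', g'] t := by
  rw [hasDerivAt_pi]
  intro i
  fin_cases i
  · exact hf
  · exact hg

lemma continuous_vec {f g : ℝ → ℝ} (hf : Continuous f) (hg : Continuous g) :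
    Continuous (fun t => (![f t, g t] : Fin 2 → ℝ)) := by
  rw [continuous_pi_iff]
  intro i
  fin_cases i
  · exact hf
  · exact hg

lemma ftc_aux {a b a' b' : ℝ → ℝ} (ha : ∀ t, HasDerivAt a (a' t) t)
    (hb : ∀ t, HasDerivAt b (b' t) t) (ha' : Continuous a') (hb' : Continuous b')
    (h0 : a 0 = a 1) (h1 : b 0 = b 1) :
    ∫ t in (0:ℝ)..1, Xi1 (a t) (b t) * a' t = -∫ t in (0:ℝ)..1, Xi2 (a t) (b t) * b' t := by
  have ac : Continuous a := continuous_iff_continuousAt.2 fun t => (ha t).continuousAt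
  have bc : Continuous b := continuous_iff_continuousAt.2 fun t => (hb t).continuousAt
  have X1c : Continuous fun t => Xi1 (a t) (b t) := Xi1_smooth.continuous.comp (ac.prodMk bc)
  have X2c : Continuous fun t => Xi2 (a t) (b t) := Xi2_smooth.continuous.comp (ac.prodMk bc)
  have c1 : Continuous fun t => Xi1 (a t) (b t) * a' t := X1c.mul ha'
  have c2 : Continuous fun t => Xi2 (a t) (b t) * b' t := X2c.mul hb'
  have F := intervalIntegral.integral_eq_sub_of_hasDerivAt (a := 0) (b := 1)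
    (fun t _ => hasDerivAt_Xi (ha t) (hb t)) ((c1.add c2).intervalIntegrable _ _)
  have F2 := intervalIntegral.integral_add (μ := volume) (c1.intervalIntegrable 0 1)
    (c2.intervalIntegrable 0 1)
  rw [h0, h1, sub_self] at F
  rw [F] at F2
  linarith

lemma hol0 (x x' : ℝ → Fin 2 → ℝ) (w : ℝ)
    (h : ∫ t in (0:ℝ)..1, x' t 0 * A 0 (x t) 0 = w) :
    ∫ t in (0:ℝ)..1, Xi1 (x t 0) (x t 1) * x' t 0 = -w := by
  rw [← h, ← intervalIntegral.integral_neg]
  apply intervalIntegral.integral_congr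
  intro t _
  simp only [A0]
  simp
  ring

lemma hol1 (x x' : ℝ → Fin 2 → ℝ) (w : ℝ)
    (h : ∫ t in (0:ℝ)..1, x' t 0 * A 0 (x t) 1 = w) :
    ∫ t in (0:ℝ)..1, Xi2 (x t 1) (x t 0) * x' t 0 = -w := by
  rw [← h, ← intervalIntegral.integral_neg]
  apply intervalIntegral.integral_congr
  intro t _
  simp only [A0]
  simp
  ring

/-- exchanging the two coordinates of the plane -/
lemma IsLoop.swap {w : Fin 2 → ℝ} (hw : IsLoop w) : IsLoop ![-w 1, -w 0] := by
  obtain ⟨x, x', hx, hx', hx0, hx1, hxh, hxw⟩ := hw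
  have hxi : ∀ i t, HasDerivAt (fun t => x t i) (x' t i) t := fun i t =>
    (hasDerivAt_pi.1 (hx t)) i
  have hx'i : ∀ i, Continuous fun t => x' t i := fun i => (continuous_apply i).comp hx'
  have e0 : ∀ i, x 0 i = x 1 i := by
    intro i
    rw [hx0 0 le_rfl, hx1 1 le_rfl]
  have F1 := ftc_aux (hxi 0) (hxi 1) (hx'i 0) (hx'i 1) (e0 0) (e0 1)
  have F2 := ftc_aux (hxi 1) (hxi 0) (hx'i 1) (hx'i 0) (e0 1) (e0 0)
  have w0 := hol0 x x' (w 0) (hxw 0)
  have w1 := hol1 x x' (w 1) (hxw 1)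
  refine ⟨fun t => ![x t 1, x t 0], fun t => ![x' t 1, x' t 0],
    fun t => hasDerivAt_vec (hxi 1 t) (hxi 0 t), continuous_vec (hx'i 1) (hx'i 0), ?_, ?_, ?_, ?_⟩
  · intro t ht
    ext l
    fin_cases l <;> simp [hx0 t ht]
  · intro t ht
    ext l
    fin_cases l <;> simp [hx1 t ht]
  · intro t
    have h := hxh t
    have h0 : Hh (x t 0) (x t 1) = 0 := congrFun h 0
    have h1 : Hh (x t 1) (x t 0) = 0 := congrFun h 1
    ext l
    fin_cases l
    · exact h1
    · exact h0
  · intro l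
    fin_cases l
    · show ∫ t in (0:ℝ)..1, x' t 1 * A 0 ![x t 1, x t 0] 0 = -w 1
      have e := hol0 (fun t => ![x t 1, x t 0]) (fun t => ![x' t 1, x' t 0]) _ rfl
      simp only [Matrix.cons_val_zero, Matrix.cons_val_one] at e
      linarith
    · show ∫ t in (0:ℝ)..1, x' t 1 * A 0 ![x t 1, x t 0] 1 = -w 0
      have e := hol1 (fun t => ![x t 1, x t 0]) (fun t => ![x' t 1, x' t 0]) _ rfl
      simp only [Matrix.cons_val_zero, Matrix.cons_val_one] at e
      linarith

end

end Pool.Agent.H521R3.Sard
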