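import Pool.Agent.H521R3.SardBasic
import Pool.Agent.H521R3.SardBrackets

/-!
Every point of `ℝ² × ℝ²` is the endpoint of a singular curve starting at the origin.
-/

namespace Pool.Agent.H521R3.Sard

open Set MeasureTheory Filter Topology
open scoped ContDiff
open Pool.Agent.Results.MP_77ffad_gt.NoRegularValue (hframe IsIteratedBracket BracketGenerating
  T T_smooth T_zero T_one hasDerivAt_T continuous_deriv_T deriv_T_of_nonpos deriv_T_of_one_le
  leb Control IsTrajectory IsCriticalAt IsSingularCurve exists_Lp XX P P_eq ae_Icc_of Phi1 int_congr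
  traj XX_zero isSingularCurve_of traj_unique traj_isTrajectory J Efun one_mem)

noncomputable section

lemma exists_covector (X : Fin 2 → ℝ) : ∃ lam : Fin 2 → ℝ, lam ≠ 0 ∧ ∑ l, lam l * X l = 0 := by
  by_cases h : X = 0
  · refine ⟨![1, 0], fun h1 => ?_, ?_⟩
    · have := congrFun h1 0
      simp at this
    · subst h; simp
  · refine ⟨![-X 1, X 0], fun h1 => h ?_, ?_⟩
    · ext l
      have a0 := congrFun h1 0
      have a1 := congrFun h1 1
      simp at a0 a1
      fin_cases l
      · exact a1
      · exact a0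
    · simp [Fin.sum_univ_two]
      ring

lemma fderiv_lamA (lam : Fin 2 → ℝ) (x v : Fin 2 → ℝ) :
    fderiv ℝ (fun z => ∑ l, lam l * A 0 z l) x v = ∑ l, lam l * fderiv ℝ (A 0) x v l := by
  have h1 : HasFDerivAt (A 0) (fderiv ℝ (A 0) x) x :=
    ((contDiff_A 0).differentiable (by simp) x).hasFDerivAt
  have h2 : ∀ l, HasFDerivAt (fun z => A 0 z l)
      ((ContinuousLinearMap.proj (R := ℝ) (φ := fun _ : Fin 2 => ℝ) l).comp
        (fderiv ℝ (A 0) x)) x := fun l => (hasFDerivAt_pi'.1 h1) l
  have h3 := HasFDerivAt.fun_sum (u := Finset.univ) (A := fun l z => lam l * A 0 z l)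
    (A' := fun l => lam l • ((ContinuousLinearMap.proj (R := ℝ) (φ := fun _ : Fin 2 => ℝ) l).comp
        (fderiv ℝ (A 0) x))) (x := x) (fun l _ => (h2 l).const_mul (lam l))
  have h4 : HasFDerivAt (fun z => ∑ l, lam l * A 0 z l) _ x := h3
  rw [h4.fderiv]
  simp

lemma vec_decomp (v : Fin 2 → ℝ) : v = v 0 • (Pi.single 0 1 : Fin 2 → ℝ) +
    v 1 • (Pi.single 1 1 : Fin 2 → ℝ) := by
  ext l
  fin_cases l <;> simp

lemma curv_cond (lam x : Fin 2 → ℝ) (h : ∑ l, lam l * hh x l = 0) (u v : Fin 2 → ℝ) :
    ∑ i, u i * fderiv ℝ (fun z => ∑ l, lam l * A i z l) x v =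
      ∑ i, v i * fderiv ℝ (fun z => ∑ l, lam l * A i z l) x u := by
  have hA1 : ∀ w, fderiv ℝ (fun z => ∑ l, lam l * A 1 z l) x w = 0 := by
    intro w
    have : (fun z : Fin 2 → ℝ => ∑ l, lam l * A 1 z l) = fun _ => 0 := by
      funext z
      simp [A1]
    rw [this]
    simp
  rw [Fin.sum_univ_two, Fin.sum_univ_two, hA1, hA1, mul_zero, mul_zero, add_zero, add_zero]
  set L := fderiv ℝ (fun z => ∑ l, lam l * A 0 z l) x with hL
  have h1 : L (Pi.single 1 1) = 0 := by
    rw [hL, fderiv_lamA]
    have h2 : fderiv ℝ (A 0) x (Pi.single 1 1) = -hh x := congrFun dd_A0 x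
    rw [h2]
    simp only [Pi.neg_apply, mul_neg, Finset.sum_neg_distrib, h, neg_zero]
  have h2 : ∀ w : Fin 2 → ℝ, L w = w 0 * L (Pi.single 0 1) := by
    intro w
    conv_lhs => rw [vec_decomp w]
    rw [map_add, map_smul, map_smul, h1, smul_zero, add_zero, smul_eq_mul]
  rw [h2 u, h2 v]
  ring

/-- the holonomy along the ray to `X` -/
def ray (X : Fin 2 → ℝ) (l : Fin 2) : ℝ := ∫ s in (0:ℝ)..1, deriv T s * X 0 * A 0 (T s • X) l

theorem exists_singular (q : (Fin 2 → ℝ) × (Fin 2 → ℝ)) :
    ∃ γ, IsSingularCurve (hframe A) γ ∧ γ 0 = 0 ∧ γ 1 = q := by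
  obtain ⟨X, Z⟩ := q
  obtain ⟨lam, hlam, hlamX⟩ := exists_covector X
  obtain ⟨y, y', hy, hy', hy0, hy1, hyh, hyw⟩ := loop_all (fun l => Z l - ray X l)
  have yc : Continuous y := continuous_iff_continuousAt.2 fun t => (hy t).continuousAt
  have c1 : Continuous fun t : ℝ => 2 * t := by fun_prop
  have c2 : Continuous fun t : ℝ => 2 * t - 1 := by fun_prop
  have dy : ∀ t : ℝ, HasDerivAt (fun t => y (2 * t)) ((2:ℝ) • y' (2 * t)) t := by
    intro t
    have h1 : HasDerivAt (fun t : ℝ => 2 * t) 2 t := by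
      simpa using (hasDerivAt_id t).const_mul (2:ℝ)
    exact (hy (2 * t)).scomp t h1
  let x : ℝ → Fin 2 → ℝ := fun t => y (2 * t) + T (2 * t - 1) • X
  let x' : ℝ → Fin 2 → ℝ := fun t => (2:ℝ) • y' (2 * t) + (deriv T (2 * t - 1) * 2) • X
  have hx : ∀ t, HasDerivAt x (x' t) t := fun t => (dy t).add ((T21_deriv t).smul_const X)
  have cdT : Continuous fun t : ℝ => deriv T (2 * t - 1) * 2 :=
    (continuous_deriv_T.comp c2).mul continuous_const
  have hx' : Continuous x' := ((hy'.comp c1).const_smul (2:ℝ)).add (cdT.smul continuous_const)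
  have hxc : Continuous x := continuous_iff_continuousAt.2 fun t => (hx t).continuousAt
  have xl : ∀ t, t ≤ 1 / 2 → x t = y (2 * t) := by
    intro t ht
    show y (2 * t) + T (2 * t - 1) • X = _
    rw [T_zero (by linarith), zero_smul, add_zero]
  have xr : ∀ t, 1 / 2 ≤ t → x t = T (2 * t - 1) • X := by
    intro t ht
    show y (2 * t) + T (2 * t - 1) • X = _
    rw [hy1 _ (by linarith), zero_add]
  have hx0 : x 0 = 0 := by rw [xl 0 (by norm_num), hy0 _ (by norm_num)]
  have hx1 : x 1 = X := by
    rw [xr 1 (by norm_num), T_one (by norm_num), one_smul]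
  have hcurv : ∀ t, ∑ l, lam l * hh (x t) l = 0 := by
    intro t
    rcases le_total t (1 / 2) with ht | ht
    · rw [xl t ht, hyh]; simp
    · rw [xr t ht, hh_eq]
      have : ∀ l, lam l * (DD (T (2 * t - 1) • X) • T (2 * t - 1) • X) l =
          DD (T (2 * t - 1) • X) * T (2 * t - 1) * (lam l * X l) := by
        intro l
        simp
        ring
      simp only [this]
      rw [← Finset.mul_sum, hlamX, mul_zero]
  choose u hu using fun i : Fin 2 => exists_Lp ((continuous_apply i).comp hx')
  have hXX : ∀ t ∈ Icc (0:ℝ) 1, XX u t = x t := by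
    intro t ht
    ext j
    have h1 : XX u t j = ∫ s in (0:ℝ)..t, x' s j := by
      show P (u j) t = _
      rw [P_eq _ ht, intervalIntegral.integral_of_le ht.1, ← integral_Icc_eq_integral_Ioc]
      exact integral_congr_ae (ae_Icc_of (hu j) ht)
    rw [h1, intervalIntegral.integral_eq_sub_of_hasDerivAt (f := fun t => x t j)
      (fun s _ => (hasDerivAt_pi.1 (hx s)) j)
      (((continuous_apply j).comp hx').intervalIntegrable _ _), hx0, Pi.zero_apply, sub_zero]
  have hPhi : ∀ (i : Fin 2) (c : (Fin 2 → ℝ) → ℝ), Phi1 i c u =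
      ∫ s in (0:ℝ)..1, x' s i * c (x s) := by
    intro i c
    apply int_congr
    filter_upwards [hu i, ae_restrict_mem measurableSet_Icc] with s h1 hs
    rw [h1, hXX s hs]
    rfl
  have h00 : traj A u 0 = 0 := by
    refine Prod.ext (XX_zero u) (funext fun l => ?_)
    simp [traj]
  refine ⟨traj A u, ?_, h00, ?_⟩
  · exact isSingularCurve_of contDiff_A lam hlam hx0 hx hx' u hu
      fun t _ v => curv_cond lam (x t) (hcurv t) (x' t) v
  · rw [traj_unique contDiff_A u _ (traj_isTrajectory contDiff_A u)]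
    refine Prod.ext (funext fun i => ?_) (funext fun l => ?_)
    · show J (u i) = X i
      have h1 : J (u i) = XX u 1 i := rfl
      rw [h1, hXX 1 one_mem, hx1]
    · show ∑ i, Phi1 i (fun x => A i x l) u = Z l
      rw [Fin.sum_univ_two, hPhi, hPhi]
      have i1 : ∫ s in (0:ℝ)..1, x' s 1 * A 1 (x s) l = 0 := by simp [A1]
      rw [i1, add_zero]
      have hcont : Continuous fun s => x' s 0 * A 0 (x s) l :=
        ((continuous_apply 0).comp hx').mul ((continuous_A0 l).comp hxc)
      rw [← intervalIntegral.integral_add_adjacent_intervals (hcont.intervalIntegrable _ _)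
        (hcont.intervalIntegrable _ _) (b := 1 / 2)]
      have e1 : ∫ t in (0:ℝ)..(1/2), x' t 0 * A 0 (x t) l =
          ∫ t in (0:ℝ)..(1/2), 2 * ((fun s => y' s 0 * A 0 (y s) l) (2 * t)) := by
        apply intervalIntegral.integral_congr
        intro t ht
        rw [uIcc_of_le (by norm_num)] at ht
        simp only
        rw [xl t ht.2]
        have : x' t 0 = 2 * y' (2 * t) 0 := by
          show ((2:ℝ) • y' (2 * t) + (deriv T (2 * t - 1) * 2) • X) 0 = _
          rw [deriv_T_of_nonpos (by linarith [ht.2])]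
          simp
        rw [this]
        ring
      have e2 : ∫ t in (1/2:ℝ)..1, x' t 0 * A 0 (x t) l =
          ∫ t in (1/2:ℝ)..1, 2 * ((fun s => deriv T s * X 0 * A 0 (T s • X) l) (2 * t - 1)) := by
        apply intervalIntegral.integral_congr
        intro t ht
        rw [uIcc_of_le (by norm_num)] at ht
        simp only
        rw [xr t ht.1]
        have : x' t 0 = 2 * (deriv T (2 * t - 1) * X 0) := by
          show ((2:ℝ) • y' (2 * t) + (deriv T (2 * t - 1) * 2) • X) 0 = _
          rw [deriv_zero_right hy hy' hy1 (by linarith [ht.1])]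
          simp
          ring
        rw [this]
        ring
      rw [e1, e2, intervalIntegral.integral_const_mul, intervalIntegral.integral_comp_mul_left
        (fun s => y' s 0 * A 0 (y s) l) (by norm_num : (2:ℝ) ≠ 0),
        intervalIntegral.integral_const_mul, intervalIntegral.integral_comp_mul_sub
        (fun s => deriv T s * X 0 * A 0 (T s • X) l) (by norm_num : (2:ℝ) ≠ 0)]
      have hw := hyw l
      norm_num
      unfold ray at hw
      linarith

end

end Pool.Agent.H521R3.Sard
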